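import Pool.Agent.Q163.HC.Bon
import Pool.Agent.Q163.GC.Mom
import Pool.Agent.Q163.RX.Gen

/-! Moments and almost sure bounds for weighted sums of a random completely multiplicative
function. -/

set_option autoImplicit false

namespace Pool.Agent.Q163.HC

open Finset Filter Topology MeasureTheory Pool.Agent.Q163.RP Pool.Agent.Q163.RX Pool.Agent.Q163.GC

/-- the primes with odd exponent in `n` -/
def od (n : ℕ) : Finset ℕ := n.primeFactors.filter fun p => Odd (n.factorization p)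

lemma ch_eq_wp (ω : ℕ → Bool) (n : ℕ) : ch ω n = wp (od n) ω := by
  unfold ch mult wp od
  rw [prod_filter]
  refine prod_congr rfl fun p _ => ?_
  have h1 : sg Set.univ es ω p = es p ω := by
    unfold sg
    rw [if_pos (Set.mem_univ p)]
  rw [h1]
  rcases signs.sign p ω with h | h
  · rw [h, one_pow]
    split_ifs <;> rfl
  · rw [h]
    split_ifs with h2
    · exact h2.neg_one_pow
    · exact (Nat.not_odd_iff_even.1 h2).neg_one_pow

/-- the moments of a weighted sum -/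
theorem mom {ι : Type*} (k : ℕ) (hk : 1 ≤ k) (I : Finset ι) (v : ι → ℝ) (M : ι → ℕ)
    (D : ℝ) (hD : ∀ i ∈ I, (2 * (k : ℝ) - 1) ^ (od (M i)).card ≤ D) (m : ℕ)
    (hm : ∀ U, (I.filter fun i => od (M i) = U).card ≤ m) (X : ℝ)
    (hX : D * (m * ∑ i ∈ I, v i ^ 2) < X) :
    ∫ ω, (∑ i ∈ I, v i * ch ω (M i)) ^ (2 * k) ∂cm ≤ X ^ k := by
  classical
  have hkR : (1 : ℝ) ≤ k := by exact_mod_cast hk
  have hk1 : (0 : ℝ) < 2 * k - 1 := by linarith
  set S : Finset ℕ := I.biUnion fun i => od (M i) with hS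
  set a : Finset ℕ → ℝ := fun U => ∑ i ∈ I.filter (fun i => od (M i) = U), v i with ha
  have hmem : ∀ i ∈ I, od (M i) ∈ S.powerset := fun i hi =>
    mem_powerset.2 (subset_biUnion_of_mem (fun i => od (M i)) hi)
  have e1 : ∀ ω, ∑ i ∈ I, v i * ch ω (M i) = ∑ U ∈ S.powerset, a U * wp U ω := by
    intro ω
    rw [← sum_fiberwise_of_maps_to hmem]
    refine sum_congr rfl fun U _ => ?_
    rw [ha, sum_mul]
    refine sum_congr rfl fun i hi => ?_
    rw [ch_eq_wp, (mem_filter.1 hi).2]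
  simp_rw [e1]
  refine bonami k hk S a X (lt_of_le_of_lt ?_ hX)
  have h1 : ∀ U ∈ S.powerset, a U ^ 2 * (2 * (k : ℝ) - 1) ^ U.card ≤
      D * (m * ∑ i ∈ I.filter (fun i => od (M i) = U), v i ^ 2) := by
    intro U _
    have h2 : a U ^ 2 ≤ ((I.filter fun i => od (M i) = U).card : ℝ) *
        ∑ i ∈ I.filter (fun i => od (M i) = U), v i ^ 2 := sq_sum_le_card_mul_sum_sq
    have h3 : ((I.filter fun i => od (M i) = U).card : ℝ) ≤ m := by exact_mod_cast hm U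
    have h4 : 0 ≤ ∑ i ∈ I.filter (fun i => od (M i) = U), v i ^ 2 :=
      sum_nonneg fun _ _ => sq_nonneg _
    rcases (I.filter fun i => od (M i) = U).eq_empty_or_nonempty with h5 | ⟨i, hi⟩
    · rw [h5, card_empty, sum_empty, mul_zero] at h2
      rw [h5, sum_empty, mul_zero, mul_zero]
      have : a U ^ 2 = 0 := le_antisymm h2 (sq_nonneg _)
      rw [this, zero_mul]
    · have h6 := hD i (mem_filter.1 hi).1
      rw [(mem_filter.1 hi).2] at h6
      have h7 : 0 ≤ (2 * (k : ℝ) - 1) ^ U.card := by positivity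
      calc a U ^ 2 * (2 * (k : ℝ) - 1) ^ U.card ≤
            (m * ∑ i ∈ I.filter (fun i => od (M i) = U), v i ^ 2) * D := by
            refine mul_le_mul (h2.trans (mul_le_mul_of_nonneg_right h3 h4)) h6 h7 ?_
            positivity
        _ = _ := mul_comm _ _
  refine (sum_le_sum h1).trans (le_of_eq ?_)
  rw [← mul_sum, ← mul_sum, sum_fiberwise_of_maps_to hmem]

/-- powers to the number of prime factors -/
lemma pow_omega (A : ℝ) (hA : 1 ≤ A) (ε : ℝ) (hε : 0 < ε) : ∃ C : ℝ, 1 ≤ C ∧ ∀ n : ℕ, 1 ≤ n →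
    ∀ U ⊆ n.primeFactors, A ^ U.card ≤ C * (n : ℝ) ^ ε := by
  classical
  set N0 : ℕ := ⌈A ^ (1 / ε)⌉₊ with hN0
  refine ⟨A ^ (N0 + 1), one_le_pow₀ hA, fun n hn U hU => ?_⟩
  have hp1 : ∀ p ∈ U, A ≤ (if p ≤ N0 then A else 1) * (p : ℝ) ^ ε := by
    intro p hp
    have hpp := Nat.prime_of_mem_primeFactors (hU hp)
    have hp1 : (1 : ℝ) ≤ p := by exact_mod_cast hpp.one_lt.le
    split_ifs with h
    · have : (1 : ℝ) ≤ (p : ℝ) ^ ε := Real.one_le_rpow hp1 hε.le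
      nlinarith
    · rw [one_mul]
      have h1 : A ^ (1 / ε) ≤ p := by
        have h2 := Nat.le_ceil (A ^ (1 / ε))
        have h3 : (N0 : ℝ) ≤ p := by exact_mod_cast (not_le.1 h).le
        exact h2.trans h3
      calc A = (A ^ (1 / ε)) ^ ε := by
            rw [← Real.rpow_mul (by linarith), one_div, inv_mul_cancel₀ hε.ne', Real.rpow_one]
        _ ≤ (p : ℝ) ^ ε := Real.rpow_le_rpow (by positivity) h1 hε.le
  have h1 : A ^ U.card ≤ ∏ p ∈ U, ((if p ≤ N0 then A else 1) * (p : ℝ) ^ ε) := by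
    rw [← prod_const]
    exact prod_le_prod (fun _ _ => by linarith) hp1
  refine h1.trans ?_
  rw [prod_mul_distrib]
  have h2 : ∏ p ∈ U, (if p ≤ N0 then A else 1) ≤ A ^ (N0 + 1) := by
    rw [prod_ite, prod_const_one, mul_one, prod_const]
    refine pow_le_pow_right₀ hA ?_
    refine (card_le_card (t := range (N0 + 1)) fun p hp => ?_).trans (le_of_eq (card_range _))
    rw [mem_range]
    have := (mem_filter.1 hp).2
    omega
  have h3 : ∏ p ∈ U, (p : ℝ) ^ ε ≤ (n : ℝ) ^ ε := by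
    rw [Real.finsetProd_rpow _ _ (fun _ _ => Nat.cast_nonneg _)]
    refine Real.rpow_le_rpow (by positivity) ?_ hε.le
    have h4 : ∏ p ∈ U, p ≤ n := by
      refine Nat.le_of_dvd (by omega) ?_
      exact (prod_dvd_prod_of_subset _ _ _ hU).trans (Nat.prod_primeFactors_dvd n)
    rw [← Nat.cast_prod]
    exact_mod_cast h4
  refine mul_le_mul h2 h3 ?_ (by positivity)
  positivity

/-- **Almost sure bounds**, uniform in families of polynomial size with arbitrary weights. -/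
theorem ae_main {τ ι : Type*} (T : ℕ → Finset τ) (A : ℕ) (C0 : ℝ)
    (hT : ∀ R : ℕ, 1 ≤ R → ((T R).card : ℝ) ≤ C0 * (R : ℝ) ^ A)
    (I : ℕ → τ → Finset ι) (v : ℕ → τ → ι → ℝ) (M : ℕ → τ → ι → ℕ) (B : ℕ) (C1 : ℝ) (hC1 : 1 ≤ C1)
    (hM : ∀ R : ℕ, 1 ≤ R → ∀ t ∈ T R, ∀ i ∈ I R t, 1 ≤ M R t i ∧ (M R t i : ℝ) ≤ C1 * (R : ℝ) ^ B)
    (Y : ℕ → τ → ℝ) (hY0 : ∀ R : ℕ, 1 ≤ R → ∀ t ∈ T R, 0 < Y R t)
    (hY : ∀ R : ℕ, 1 ≤ R → ∀ t ∈ T R, ∃ m : ℕ,
      (∀ U, ((I R t).filter fun i => od (M R t i) = U).card ≤ m) ∧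
      m * ∑ i ∈ I R t, v R t i ^ 2 ≤ Y R t) (ε : ℝ) (hε : 0 < ε) :
    ∀ᵐ ω ∂cm, ∀ᶠ R : ℕ in atTop, ∀ t ∈ T R,
      |∑ i ∈ I R t, v R t i * ch ω (M R t i)| ≤ (R : ℝ) ^ ε * Real.sqrt (Y R t) := by
  obtain ⟨k, hk⟩ := exists_nat_ge ((A + 3 : ℝ) / ε + 1)
  have hk1 : (1 : ℝ) ≤ k := by
    have : 0 ≤ (A + 3 : ℝ) / ε := by positivity
    linarith
  have hkn : 1 ≤ k := by exact_mod_cast hk1
  have hkA : (A + 3 : ℝ) ≤ k * ε := by
    have h1 : (A + 3 : ℝ) / ε ≤ k := by linarith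
    rwa [div_le_iff₀ hε] at h1
  set ε1 : ℝ := ε / (B + 1) with hε1
  have hε10 : 0 < ε1 := by positivity
  obtain ⟨C, hC, hCn⟩ := pow_omega (2 * k - 1) (by linarith) ε1 hε10
  set C2 : ℝ := C * C1 ^ ε1 + 1 with hC2
  have hC20 : 0 < C2 := by positivity
  have hD : ∀ R : ℕ, 1 ≤ R → ∀ t ∈ T R, ∀ i ∈ I R t,
      (2 * (k : ℝ) - 1) ^ (od (M R t i)).card ≤ C * C1 ^ ε1 * (R : ℝ) ^ ε := by
    intro R hR t ht i hi
    obtain ⟨h1, h2⟩ := hM R hR t ht i hi
    have hRR : (1 : ℝ) ≤ R := by exact_mod_cast hR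
    refine (hCn _ h1 _ (filter_subset _ _)).trans ?_
    rw [mul_assoc]
    refine mul_le_mul_of_nonneg_left ?_ (by linarith)
    calc ((M R t i : ℕ) : ℝ) ^ ε1 ≤ (C1 * (R : ℝ) ^ B) ^ ε1 :=
          Real.rpow_le_rpow (Nat.cast_nonneg _) h2 hε10.le
      _ = C1 ^ ε1 * ((R : ℝ) ^ (B * ε1)) := by
          rw [Real.mul_rpow (by linarith) (by positivity), ← Real.rpow_natCast (R : ℝ) B,
            ← Real.rpow_mul (by linarith)]
      _ ≤ C1 ^ ε1 * (R : ℝ) ^ ε := by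
          refine mul_le_mul_of_nonneg_left (Real.rpow_le_rpow_of_exponent_le hRR ?_) (by positivity)
          rw [hε1, mul_div_assoc', div_le_iff₀ (by positivity)]
          nlinarith
  have hmom : ∀ R : ℕ, 1 ≤ R → ∀ t ∈ T R,
      ∫ ω, (∑ i ∈ I R t, v R t i * ch ω (M R t i)) ^ (2 * k) ∂cm ≤
        (C2 * (R : ℝ) ^ ε * Y R t) ^ k := by
    intro R hR t ht
    obtain ⟨m, hm1, hm2⟩ := hY R hR t ht
    have hRR : (1 : ℝ) ≤ R := by exact_mod_cast hR
    refine mom k hkn _ _ _ (C * C1 ^ ε1 * (R : ℝ) ^ ε) (hD R hR t ht) m hm1 _ ?_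
    have h3 := hY0 R hR t ht
    calc C * C1 ^ ε1 * (R : ℝ) ^ ε * (m * ∑ i ∈ I R t, v R t i ^ 2) ≤
          C * C1 ^ ε1 * (R : ℝ) ^ ε * Y R t := mul_le_mul_of_nonneg_left hm2 (by positivity)
      _ < C2 * (R : ℝ) ^ ε * Y R t := by
          refine mul_lt_mul_of_pos_right ?_ h3
          refine mul_lt_mul_of_pos_right ?_ (by positivity)
          rw [hC2]
          linarith
  have h1 := bcf T (fun R t => {ω | (R : ℝ) ^ ε * Real.sqrt (Y R t) <
      |∑ i ∈ I R t, v R t i * ch ω (M R t i)|}) (by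
    obtain ⟨R0, hR0⟩ := exists_nat_ge (C2 ^ k * C0)
    filter_upwards [eventually_ge_atTop (max 1 R0)] with R hR t ht
    have hR1 : 1 ≤ R := (le_max_left _ _).trans hR
    have hRR : (1 : ℝ) ≤ R := by exact_mod_cast hR1
    have hRp : (0 : ℝ) < R := by linarith
    have hRC : C2 ^ k * C0 ≤ R := hR0.trans (by exact_mod_cast (le_max_right _ _).trans hR)
    have hYp := hY0 R hR1 t ht
    set F : (ℕ → Bool) → ℝ := fun ω => ∑ i ∈ I R t, v R t i * ch ω (M R t i) with hF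
    set L : ℝ := (R : ℝ) ^ ε * Real.sqrt (Y R t) with hL
    have hL0 : 0 < L := by positivity
    have hm : Measurable F := Finset.measurable_fun_sum _ fun i _ => (meas_ch _).const_mul _
    have hb : ∀ ω, |F ω| ≤ ∑ i ∈ I R t, |v R t i| := by
      intro ω
      refine (abs_sum_le_sum_abs _ _).trans (le_of_eq (sum_congr rfl fun i _ => ?_))
      rw [abs_mul, abs_ch, mul_one]
    have hint : Integrable (fun ω => F ω ^ (2 * k)) cm :=
      Integrable.of_bound (hm.pow_const _).aestronglyMeasurable ((∑ i ∈ I R t, |v R t i|) ^ (2 * k))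
        (Eventually.of_forall fun ω => by
          rw [Real.norm_eq_abs, abs_pow]
          exact pow_le_pow_left₀ (abs_nonneg _) (hb ω) _)
    have h2 := mul_meas_ge_le_integral_of_nonneg (μ := cm) (f := fun ω => F ω ^ (2 * k))
      (Eventually.of_forall fun ω => (even_two_mul k).pow_nonneg _) hint (L ^ (2 * k))
    have h3 : cm.real {ω | L < |F ω|} ≤ cm.real {ω | L ^ (2 * k) ≤ F ω ^ (2 * k)} := by
      refine measureReal_mono (fun ω hω => ?_)
      simp only [Set.mem_ofPred_eq] at hω ⊢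
      rw [← (even_two_mul k).pow_abs (F ω)]
      exact pow_le_pow_left₀ hL0.le hω.le _
    refine h3.trans ?_
    have h4 : L ^ (2 * k) = ((R : ℝ) ^ ε * (R : ℝ) ^ ε * Y R t) ^ k := by
      rw [pow_mul, hL, mul_pow, Real.sq_sqrt hYp.le, sq]
    have h5 : L ^ (2 * k) * cm.real {ω | L ^ (2 * k) ≤ F ω ^ (2 * k)} ≤
        (C2 * (R : ℝ) ^ ε * Y R t) ^ k := h2.trans (hmom R hR1 t ht)
    have h6 : (C2 * (R : ℝ) ^ ε * Y R t) ^ k * (R : ℝ) ^ (k * ε) = C2 ^ k * L ^ (2 * k) := by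
      rw [h4, show (k : ℝ) * ε = ε * k by ring, Real.rpow_mul hRp.le, Real.rpow_natCast, ← mul_pow,
        ← mul_pow]
      congr 1
      ring
    have hLk : 0 < L ^ (2 * k) := by positivity
    have h7 : cm.real {ω | L ^ (2 * k) ≤ F ω ^ (2 * k)} ≤ C2 ^ k / (R : ℝ) ^ (k * ε) := by
      rw [le_div_iff₀ (by positivity)]
      refine le_of_mul_le_mul_left ?_ hLk
      calc L ^ (2 * k) * (cm.real {ω | L ^ (2 * k) ≤ F ω ^ (2 * k)} * (R : ℝ) ^ (k * ε)) =
            (L ^ (2 * k) * cm.real {ω | L ^ (2 * k) ≤ F ω ^ (2 * k)}) * (R : ℝ) ^ (k * ε) := by ring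
        _ ≤ (C2 * (R : ℝ) ^ ε * Y R t) ^ k * (R : ℝ) ^ (k * ε) :=
            mul_le_mul_of_nonneg_right h5 (by positivity)
        _ = L ^ (2 * k) * C2 ^ k := by rw [h6, mul_comm]
    refine h7.trans ?_
    have e2 : (R : ℝ) ^ A * (R : ℝ) ^ 3 ≤ (R : ℝ) ^ (k * ε) := by
      rw [← pow_add, ← Real.rpow_natCast]
      refine Real.rpow_le_rpow_of_exponent_le hRR ?_
      push_cast
      exact hkA
    have hcard : (0 : ℝ) < (T R).card := by
      exact_mod_cast card_pos.2 ⟨t, ht⟩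
    have hT' := hT R hR1
    rw [div_le_div_iff₀ (by positivity) (by positivity)]
    calc C2 ^ k * ((T R).card * (R : ℝ) ^ 2) ≤ C2 ^ k * (C0 * (R : ℝ) ^ A * (R : ℝ) ^ 2) := by
          gcongr
      _ = (C2 ^ k * C0) * ((R : ℝ) ^ A * (R : ℝ) ^ 2) := by ring
      _ ≤ R * ((R : ℝ) ^ A * (R : ℝ) ^ 2) := mul_le_mul_of_nonneg_right hRC (by positivity)
      _ = (R : ℝ) ^ A * (R : ℝ) ^ 3 := by ring
      _ ≤ 2 * (R : ℝ) ^ (k * ε) := by
          have : 0 ≤ (R : ℝ) ^ (k * ε) := by positivity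
          linarith)
  filter_upwards [h1] with ω hω
  filter_upwards [hω] with R hR t ht
  have := hR t ht
  simp only [not_lt] at this
  exact this

end Pool.Agent.Q163.HC
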