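import Pool.Agent.Q163.RX.Mgf

/-! The hypercontractive inequality for polynomials in independent signs. -/

set_option autoImplicit false

namespace Pool.Agent.Q163.HC

open Finset Filter MeasureTheory Pool.Agent.Q163.RP Pool.Agent.Q163.RX

lemma sum_parity (f : ℕ → ℝ) (k : ℕ) : ∑ i ∈ range (2 * k + 1), f i =
    ∑ j ∈ range (k + 1), f (2 * j) + ∑ j ∈ range k, f (2 * j + 1) := by
  induction k with
  | zero => simp
  | succ k ih =>
    rw [show 2 * (k + 1) + 1 = 2 * k + 1 + 1 + 1 by ring, sum_range_succ, sum_range_succ, ih,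
      sum_range_succ (fun j => f (2 * j)) (k + 1), sum_range_succ (fun j => f (2 * j + 1)) k]
    rw [show 2 * (k + 1) = 2 * k + 1 + 1 by ring]
    ring

lemma choose_le (k : ℕ) (hk : 1 ≤ k) (j : ℕ) (hj : j ≤ k) :
    ((2 * k).choose (2 * j) : ℝ) ≤ k.choose j * (2 * k - 1) ^ j := by
  have hkR : (1 : ℝ) ≤ k := by exact_mod_cast hk
  induction j with
  | zero => simp
  | succ j ih =>
    have hjk : j ≤ k := by omega
    have h0 := ih hjk
    have hjR : (j : ℝ) + 1 ≤ k := by exact_mod_cast hj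
    have e1 : ((2 * k).choose (2 * j + 1) : ℝ) * (2 * j + 1) = (2 * k).choose (2 * j) * (2 * k - 2 * j) := by
      have h := Nat.choose_succ_right_eq (2 * k) (2 * j)
      have h2 : (((2 * k).choose (2 * j + 1) * (2 * j + 1) : ℕ) : ℝ) =
          (((2 * k).choose (2 * j) * (2 * k - 2 * j) : ℕ) : ℝ) := by rw [h]
      rw [Nat.cast_mul, Nat.cast_mul, Nat.cast_sub (by omega)] at h2
      push_cast at h2
      exact h2
    have e2 : ((2 * k).choose (2 * (j + 1)) : ℝ) * (2 * j + 2) =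
        (2 * k).choose (2 * j + 1) * (2 * k - (2 * j + 1)) := by
      have h := Nat.choose_succ_right_eq (2 * k) (2 * j + 1)
      have h2 : (((2 * k).choose (2 * j + 1 + 1) * (2 * j + 1 + 1) : ℕ) : ℝ) =
          (((2 * k).choose (2 * j + 1) * (2 * k - (2 * j + 1)) : ℕ) : ℝ) := by rw [h]
      rw [Nat.cast_mul, Nat.cast_mul, Nat.cast_sub (by omega)] at h2
      push_cast at h2
      rw [show 2 * (j + 1) = 2 * j + 1 + 1 by ring]
      linarith
    have e3 : (k.choose (j + 1) : ℝ) * (j + 1) = k.choose j * (k - j) := by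
      have h := Nat.choose_succ_right_eq k j
      have h2 : ((k.choose (j + 1) * (j + 1) : ℕ) : ℝ) = ((k.choose j * (k - j) : ℕ) : ℝ) := by rw [h]
      rw [Nat.cast_mul, Nat.cast_mul, Nat.cast_sub hjk] at h2
      push_cast at h2
      exact h2
    have hp : (0 : ℝ) < (2 * j + 1) * (2 * j + 2) := by positivity
    have e4 : ((2 * k).choose (2 * (j + 1)) : ℝ) * ((2 * j + 1) * (2 * j + 2)) =
        (2 * k).choose (2 * j) * ((2 * k - 2 * j) * (2 * k - (2 * j + 1))) := by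
      linear_combination (2 * (j : ℝ) + 1) * e2 + (2 * (k : ℝ) - (2 * j + 1)) * e1
    have e5 : (k.choose (j + 1) : ℝ) * (2 * k - 1) ^ (j + 1) * ((2 * j + 1) * (2 * j + 2)) =
        k.choose j * (2 * k - 1) ^ j * ((2 * k - 2 * j) * ((2 * k - 1) * (2 * j + 1))) := by
      rw [pow_succ]
      linear_combination 2 * (2 * (j : ℝ) + 1) * (2 * k - 1) ^ j * (2 * k - 1) * e3
    refine le_of_mul_le_mul_right ?_ hp
    rw [e4, e5]
    have h1 : (0 : ℝ) ≤ (2 * k - 2 * j) := by linarith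
    have h2 : (2 * (k : ℝ) - (2 * j + 1)) ≤ (2 * k - 1) * (2 * j + 1) := by
      have : (0 : ℝ) ≤ j := Nat.cast_nonneg _
      nlinarith
    have h3 : (0 : ℝ) ≤ 2 * k - (2 * j + 1) := by linarith
    have h4 : (0 : ℝ) ≤ k.choose j * (2 * k - 1) ^ j := by
      have : (0 : ℝ) ≤ 2 * k - 1 := by linarith
      positivity
    exact mul_le_mul h0 (mul_le_mul_of_nonneg_left h2 h1) (mul_nonneg h1 h3) h4

theorem two_point (k : ℕ) (hk : 1 ≤ k) (g h : ℝ) :
    (g + h) ^ (2 * k) + (g - h) ^ (2 * k) ≤ 2 * (g ^ 2 + (2 * k - 1) * h ^ 2) ^ k := by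
  have h1 : (g + h) ^ (2 * k) = ∑ i ∈ range (2 * k + 1), h ^ i * g ^ (2 * k - i) * (2 * k).choose i := by
    rw [add_comm, add_pow]
  have h2 : (g - h) ^ (2 * k) = ∑ i ∈ range (2 * k + 1),
      (-h) ^ i * g ^ (2 * k - i) * (2 * k).choose i := by
    rw [sub_eq_neg_add, add_pow]
  rw [h1, h2, ← sum_add_distrib, sum_parity]
  have h3 : ∑ j ∈ range k, (h ^ (2 * j + 1) * g ^ (2 * k - (2 * j + 1)) * ((2 * k).choose (2 * j + 1) : ℝ) +
      (-h) ^ (2 * j + 1) * g ^ (2 * k - (2 * j + 1)) * ((2 * k).choose (2 * j + 1) : ℝ)) = 0 := by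
    refine sum_eq_zero fun j _ => ?_
    rw [Odd.neg_pow ⟨j, rfl⟩]
    ring
  rw [h3, add_zero]
  have h4 : (g ^ 2 + (2 * k - 1) * h ^ 2) ^ k = ∑ j ∈ range (k + 1),
      ((2 * k - 1) * h ^ 2) ^ j * (g ^ 2) ^ (k - j) * (k.choose j : ℝ) := by
    rw [add_comm, add_pow]
  rw [h4, mul_sum]
  refine sum_le_sum fun j hj => ?_
  have hjk : j ≤ k := by
    have := mem_range.1 hj
    omega
  rw [Even.neg_pow ⟨j, by ring⟩, pow_mul h 2 j, show 2 * k - 2 * j = 2 * (k - j) by omega,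
    pow_mul g 2 (k - j), mul_pow]
  have h5 := choose_le k hk j hjk
  have h6 : (0 : ℝ) ≤ (h ^ 2) ^ j * (g ^ 2) ^ (k - j) := by positivity
  have h7 := mul_le_mul_of_nonneg_left h5 h6
  linarith

lemma convex_pow (k : ℕ) {A B u v : ℝ} (hA : 0 < A) (hB : 0 < B) (hu : 0 ≤ u) (hv : 0 ≤ v) :
    (A * u + B * v) ^ k ≤ (A + B) ^ k * (A / (A + B) * u ^ k + B / (A + B) * v ^ k) := by
  have hAB : 0 < A + B := by linarith
  have h1 := (convexOn_pow k).2 (show u ∈ Set.Ici (0 : ℝ) from hu) (show v ∈ Set.Ici (0 : ℝ) from hv)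
    (by positivity : (0 : ℝ) ≤ A / (A + B)) (by positivity : (0 : ℝ) ≤ B / (A + B))
    (by field_simp)
  simp only [smul_eq_mul] at h1
  have h2 : A * u + B * v = (A + B) * (A / (A + B) * u + B / (A + B) * v) := by
    field_simp
  rw [h2, mul_pow]
  exact mul_le_mul_of_nonneg_left h1 (by positivity)

/-- one more sign -/
theorem step (k : ℕ) (hk : 1 ≤ k) (p : ℕ) (G H : (ℕ → Bool) → ℝ) (hGm : Measurable G)
    (hHm : Measurable H) {K : ℝ} (hGK : ∀ ω, |G ω| ≤ K) (hHK : ∀ ω, |H ω| ≤ K)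
    (hGf : ∀ ω, G (fl p ω) = G ω) (hHf : ∀ ω, H (fl p ω) = H ω) {A B : ℝ} (hA : 0 < A) (hB : 0 < B)
    (h1 : ∫ ω, G ω ^ (2 * k) ∂cm ≤ A ^ k) (h2 : ∫ ω, H ω ^ (2 * k) ∂cm ≤ B ^ k) :
    ∫ ω, (G ω + es p ω * H ω) ^ (2 * k) ∂cm ≤ (A + (2 * k - 1) * B) ^ k := by
  have hkR : (1 : ℝ) ≤ k := by exact_mod_cast hk
  have hK0 : 0 ≤ K := (abs_nonneg _).trans (hGK fun _ => true)
  have hesm : Measurable (es p) := signs.meas p
  have hes : ∀ ω, |es p ω| = 1 := by
    intro ω
    rcases signs.sign p ω with h | h <;> rw [h] <;> simp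
  have hint : ∀ (F : (ℕ → Bool) → ℝ) (C : ℝ), Measurable F → (∀ ω, |F ω| ≤ C) →
      Integrable (fun ω => F ω ^ (2 * k)) cm := by
    intro F C hF hC
    refine Integrable.of_bound (hF.pow_const _).aestronglyMeasurable (C ^ (2 * k))
      (Eventually.of_forall fun ω => ?_)
    rw [Real.norm_eq_abs, abs_pow]
    exact pow_le_pow_left₀ (abs_nonneg _) (hC ω) _
  have hb1 : ∀ ω, |G ω + es p ω * H ω| ≤ K + K := by
    intro ω
    refine (abs_add_le _ _).trans (add_le_add (hGK ω) ?_)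
    rw [abs_mul, hes, one_mul]
    exact hHK ω
  have hb2 : ∀ ω, |G ω - es p ω * H ω| ≤ K + K := by
    intro ω
    refine (abs_sub _ _).trans (add_le_add (hGK ω) ?_)
    rw [abs_mul, hes, one_mul]
    exact hHK ω
  have hm1 : Measurable fun ω => G ω + es p ω * H ω := hGm.add (hesm.mul hHm)
  have hm2 : Measurable fun ω => G ω - es p ω * H ω := hGm.sub (hesm.mul hHm)
  have hi1 := hint _ _ hm1 hb1
  have hi2 := hint _ _ hm2 hb2
  have hflip : ∫ ω, (G ω - es p ω * H ω) ^ (2 * k) ∂cm = ∫ ω, (G ω + es p ω * H ω) ^ (2 * k) ∂cm := by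
    have h3 := (mp_fl p).integral_comp' (f := (MeasurableEquiv.ofInvolutive (fl p) (fun ω => by
      funext i
      unfold fl
      split_ifs <;> simp) (mp_fl p).measurable)) (g := fun ω => (G ω + es p ω * H ω) ^ (2 * k))
    rw [← h3]
    refine integral_congr_ae (Eventually.of_forall fun ω => ?_)
    show (G ω - es p ω * H ω) ^ (2 * k) = (G (fl p ω) + es p (fl p ω) * H (fl p ω)) ^ (2 * k)
    rw [hGf, hHf]
    have h4 : es p (fl p ω) = - es p ω := by
      unfold es fl sgn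
      rw [if_pos rfl]
      cases ω p <;> simp
    rw [h4]
    congr 1
    ring
  have hpt : ∀ ω, (G ω + es p ω * H ω) ^ (2 * k) + (G ω - es p ω * H ω) ^ (2 * k) ≤
      2 * ((A + (2 * k - 1) * B) ^ k * (A / (A + (2 * k - 1) * B) * (G ω ^ (2 * k) / A ^ k) +
        (2 * k - 1) * B / (A + (2 * k - 1) * B) * (H ω ^ (2 * k) / B ^ k))) := by
    intro ω
    refine (two_point k hk _ _).trans (mul_le_mul_of_nonneg_left ?_ (by norm_num))
    have hB' : 0 < (2 * (k : ℝ) - 1) * B := mul_pos (by linarith) hB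
    have h5 := convex_pow k hA hB' (u := G ω ^ 2 / A) (v := H ω ^ 2 / B) (by positivity) (by positivity)
    have h6 : A * (G ω ^ 2 / A) + (2 * (k : ℝ) - 1) * B * (H ω ^ 2 / B) =
        G ω ^ 2 + (2 * k - 1) * (es p ω * H ω) ^ 2 := by
      have h7 : es p ω ^ 2 = 1 := by
        rw [← sq_abs, hes, one_pow]
      rw [mul_pow, h7]
      field_simp
    rw [h6] at h5
    refine h5.trans (le_of_eq ?_)
    rw [div_pow, div_pow, ← pow_mul, ← pow_mul]
  have hiG := (hint G K hGm hGK).div_const (A ^ k)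
  have hiH := (hint H K hHm hHK).div_const (B ^ k)
  have h8 : ∫ ω, (G ω + es p ω * H ω) ^ (2 * k) ∂cm + ∫ ω, (G ω - es p ω * H ω) ^ (2 * k) ∂cm ≤
      2 * ((A + (2 * k - 1) * B) ^ k * (A / (A + (2 * k - 1) * B) * ((∫ ω, G ω ^ (2 * k) ∂cm) / A ^ k) +
        (2 * k - 1) * B / (A + (2 * k - 1) * B) * ((∫ ω, H ω ^ (2 * k) ∂cm) / B ^ k))) := by
    rw [← integral_add hi1 hi2]
    have hR : Integrable (fun ω => 2 * ((A + (2 * (k : ℝ) - 1) * B) ^ k *
        (A / (A + (2 * (k : ℝ) - 1) * B) * (G ω ^ (2 * k) / A ^ k) +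
        (2 * (k : ℝ) - 1) * B / (A + (2 * (k : ℝ) - 1) * B) * (H ω ^ (2 * k) / B ^ k)))) cm :=
      (((hiG.const_mul _).add (hiH.const_mul _)).const_mul _).const_mul 2
    refine (integral_mono (hi1.add hi2) hR hpt).trans (le_of_eq ?_)
    rw [integral_const_mul, integral_const_mul, integral_add (hiG.const_mul _) (hiH.const_mul _),
      integral_const_mul, integral_const_mul, integral_div, integral_div]
  rw [hflip] at h8
  have hB' : 0 < (2 * (k : ℝ) - 1) * B := mul_pos (by linarith) hB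
  have hAB : 0 < A + (2 * (k : ℝ) - 1) * B := by linarith
  have h9 : (∫ ω, G ω ^ (2 * k) ∂cm) / A ^ k ≤ 1 := by
    rw [div_le_one (by positivity)]
    exact h1
  have h10 : (∫ ω, H ω ^ (2 * k) ∂cm) / B ^ k ≤ 1 := by
    rw [div_le_one (by positivity)]
    exact h2
  have h11 : A / (A + (2 * k - 1) * B) * ((∫ ω, G ω ^ (2 * k) ∂cm) / A ^ k) +
      (2 * k - 1) * B / (A + (2 * k - 1) * B) * ((∫ ω, H ω ^ (2 * k) ∂cm) / B ^ k) ≤ 1 := by
    have e1 : A / (A + (2 * k - 1) * B) * ((∫ ω, G ω ^ (2 * k) ∂cm) / A ^ k) ≤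
        A / (A + (2 * k - 1) * B) * 1 := mul_le_mul_of_nonneg_left h9 (by positivity)
    have e2 : (2 * k - 1) * B / (A + (2 * k - 1) * B) * ((∫ ω, H ω ^ (2 * k) ∂cm) / B ^ k) ≤
        (2 * k - 1) * B / (A + (2 * k - 1) * B) * 1 := mul_le_mul_of_nonneg_left h10 (by positivity)
    have e3 : A / (A + (2 * k - 1) * B) * 1 + (2 * k - 1) * B / (A + (2 * k - 1) * B) * 1 = 1 := by
      field_simp
    linarith
  have h12 := mul_le_mul_of_nonneg_left h11 (by positivity : 0 ≤ (A + (2 * (k : ℝ) - 1) * B) ^ k)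
  rw [mul_one] at h12
  linarith

/-- the product of the signs in `T` -/
noncomputable def wp (T : Finset ℕ) (ω : ℕ → Bool) : ℝ := ∏ p ∈ T, es p ω

lemma abs_wp (T : Finset ℕ) (ω : ℕ → Bool) : |wp T ω| = 1 := by
  unfold wp
  rw [Finset.abs_prod]
  refine Finset.prod_eq_one fun p _ => ?_
  rcases signs.sign p ω with h | h <;> rw [h] <;> simp

lemma meas_wp (T : Finset ℕ) : Measurable (wp T) :=
  Finset.measurable_fun_prod _ fun p _ => signs.meas p

lemma wp_fl {T : Finset ℕ} {p : ℕ} (hp : p ∉ T) (ω : ℕ → Bool) : wp T (fl p ω) = wp T ω := by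
  unfold wp
  refine Finset.prod_congr rfl fun q hq => ?_
  have : q ≠ p := fun h => hp (h ▸ hq)
  unfold es fl
  rw [if_neg this]

/-- **The hypercontractive inequality.** -/
theorem bonami (k : ℕ) (hk : 1 ≤ k) (S : Finset ℕ) : ∀ (a : Finset ℕ → ℝ) (M : ℝ),
    ∑ T ∈ S.powerset, a T ^ 2 * (2 * k - 1) ^ T.card < M →
    ∫ ω, (∑ T ∈ S.powerset, a T * wp T ω) ^ (2 * k) ∂cm ≤ M ^ k := by
  classical
  have hkR : (1 : ℝ) ≤ k := by exact_mod_cast hk
  induction S using Finset.induction_on with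
  | empty =>
    intro a M hM
    rw [powerset_empty, sum_singleton, card_empty, pow_zero, mul_one] at hM
    have h1 : ∀ ω, (∑ T ∈ ({∅} : Finset (Finset ℕ)), a T * wp T ω) ^ (2 * k) = (a ∅ ^ 2) ^ k := by
      intro ω
      rw [sum_singleton]
      unfold wp
      rw [prod_empty, mul_one, pow_mul]
    rw [powerset_empty]
    simp_rw [h1]
    rw [integral_const, probReal_univ, one_smul]
    exact pow_le_pow_left₀ (sq_nonneg _) hM.le _
  | insert p S hp ih =>
    intro a M hM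
    set b : Finset ℕ → ℝ := fun T => a (insert p T) with hb
    have hpT : ∀ T ∈ S.powerset, p ∉ T := fun T hT h => hp (mem_powerset.1 hT h)
    have hdisj : Disjoint S.powerset (S.powerset.image (insert p)) := by
      rw [Finset.disjoint_left]
      intro T hT hT'
      obtain ⟨U, _, rfl⟩ := mem_image.1 hT'
      exact hpT _ hT (mem_insert_self _ _)
    have hinj : Set.InjOn (insert p) (S.powerset : Set (Finset ℕ)) := by
      intro T hT U hU h
      have h1 : (insert p T).erase p = (insert p U).erase p := by rw [h]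
      rwa [erase_insert (hpT T hT), erase_insert (hpT U hU)] at h1
    have e1 : ∑ T ∈ (insert p S).powerset, a T ^ 2 * (2 * (k : ℝ) - 1) ^ T.card =
        ∑ T ∈ S.powerset, a T ^ 2 * (2 * (k : ℝ) - 1) ^ T.card +
        (2 * (k : ℝ) - 1) * ∑ T ∈ S.powerset, b T ^ 2 * (2 * (k : ℝ) - 1) ^ T.card := by
      rw [powerset_insert, sum_union hdisj, sum_image hinj]
      congr 1
      rw [mul_sum]
      refine sum_congr rfl fun T hT => ?_
      rw [card_insert_of_notMem (hpT T hT), pow_succ]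
      ring
    have e2 : ∀ ω, ∑ T ∈ (insert p S).powerset, a T * wp T ω =
        ∑ T ∈ S.powerset, a T * wp T ω + es p ω * ∑ T ∈ S.powerset, b T * wp T ω := by
      intro ω
      rw [powerset_insert, sum_union hdisj, sum_image hinj]
      congr 1
      rw [mul_sum]
      refine sum_congr rfl fun T hT => ?_
      have : wp (insert p T) ω = es p ω * wp T ω := by
        unfold wp
        rw [prod_insert (hpT T hT)]
      rw [this]
      ring
    rw [e1] at hM
    set s1 := ∑ T ∈ S.powerset, a T ^ 2 * (2 * (k : ℝ) - 1) ^ T.card with hs1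
    set s2 := ∑ T ∈ S.powerset, b T ^ 2 * (2 * (k : ℝ) - 1) ^ T.card with hs2
    have hk1 : (0 : ℝ) < 2 * k - 1 := by linarith
    have hs1' : 0 ≤ s1 := sum_nonneg fun T _ => by positivity
    have hs2' : 0 ≤ s2 := sum_nonneg fun T _ => by positivity
    set η : ℝ := (M - (s1 + (2 * k - 1) * s2)) / (2 * k) with hη
    have hη0 : 0 < η := by
      rw [hη]
      apply div_pos
      · linarith
      · linarith
    have hA : 0 < s1 + η := by linarith
    have hB : 0 < s2 + η := by linarith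
    have hsum : (s1 + η) + (2 * k - 1) * (s2 + η) = M := by
      rw [hη]
      field_simp
      ring
    have hbdd : ∀ c : Finset ℕ → ℝ, ∀ ω, |∑ T ∈ S.powerset, c T * wp T ω| ≤
        ∑ T ∈ S.powerset, |c T| := by
      intro c ω
      refine (abs_sum_le_sum_abs _ _).trans (le_of_eq (sum_congr rfl fun T _ => ?_))
      rw [abs_mul, abs_wp, mul_one]
    have hms : ∀ c : Finset ℕ → ℝ, Measurable fun ω => ∑ T ∈ S.powerset, c T * wp T ω := fun c =>
      Finset.measurable_fun_sum _ fun T _ => (meas_wp T).const_mul _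
    have hfl : ∀ c : Finset ℕ → ℝ, ∀ ω, ∑ T ∈ S.powerset, c T * wp T (fl p ω) =
        ∑ T ∈ S.powerset, c T * wp T ω := fun c ω =>
      sum_congr rfl fun T hT => by rw [wp_fl (hpT T hT)]
    have h3 := step k hk p (fun ω => ∑ T ∈ S.powerset, a T * wp T ω)
      (fun ω => ∑ T ∈ S.powerset, b T * wp T ω) (hms a) (hms b)
      (K := max (∑ T ∈ S.powerset, |a T|) (∑ T ∈ S.powerset, |b T|))
      (fun ω => (hbdd a ω).trans (le_max_left _ _)) (fun ω => (hbdd b ω).trans (le_max_right _ _))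
      (hfl a) (hfl b) hA hB (ih a (s1 + η) (by linarith)) (ih b (s2 + η) (by linarith))
    rw [hsum] at h3
    simp_rw [e2]
    exact h3

end Pool.Agent.Q163.HC
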