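import Pool.Agent.Q163.EX.Exp

/-! The exponent of convergence of a set of primes. -/

set_option autoImplicit false

namespace Pool.Agent.Q163.HC

open Finset Filter Topology MeasureTheory Pool.Agent.Q163.RP Pool.Agent.Q163.RX
  Pool.Agent.Q163.WM Pool.Agent.Q163.EX

open Classical in
/-- the exponent of convergence of the set of the primes in `Q` -/
noncomputable def cexp (Q : Set ℕ) : ℝ :=
  sInf {t : ℝ | 0 ≤ t ∧ Summable fun p : ℕ => if p.Prime ∧ p ∈ Q then (p : ℝ) ^ (-t) else 0}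

open Classical in
/-- the completely multiplicative function with the value `s p` at the primes `p` of `Q` and the value `1` or
`-1` according to `ω p` at the other primes `p` -/
noncomputable def chi (Q : Set ℕ) (s : ℕ → ℝ) (ω : ℕ → Bool) (n : ℕ) : ℝ :=
  ∏ p ∈ n.primeFactors, (if p ∈ Q then s p else if ω p = true then 1 else -1) ^ n.factorization p

lemma chi_eq (Q : Set ℕ) (s : ℕ → ℝ) (ω : ℕ → Bool) (n : ℕ) : chi Q s ω n = mult (vl Qᶜ s ω) n := by
  unfold chi mult vl es sgn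
  refine Finset.prod_congr rfl fun p _ => ?_
  by_cases hp : p ∈ Q
  · have h1 : ¬ p ∈ Qᶜ := fun h => h hp
    rw [if_pos hp, if_neg h1]
  · have h1 : p ∈ Qᶜ := hp
    rw [if_neg hp, if_pos h1]

open Classical in
lemma Cv_iff (Q : Set ℕ) (t : ℝ) :
    Cv Qᶜᶜ t ↔ Summable fun p : ℕ => if p.Prime ∧ p ∈ Q then (p : ℝ) ^ (-t) else 0 := by
  unfold Cv cq
  rw [compl_compl]
  have h : (fun p : ℕ => if p.Prime then (if p ∈ Q then (p : ℝ) ^ (-t) else 0) else 0) =
      fun p : ℕ => if p.Prime ∧ p ∈ Q then (p : ℝ) ^ (-t) else 0 := by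
    funext p
    rw [ite_and]
  rw [h]

lemma Cv_mono {Q : Set ℕ} {t t' : ℝ} (h : t ≤ t') (ht : Cv Q t) : Cv Q t' := by
  classical
  unfold Cv at ht ⊢
  refine Summable.of_nonneg_of_le (fun p => ?_) (fun p => ?_) ht
  · split_ifs
    · exact cq_nonneg _ _ _
    · exact le_rfl
  · by_cases hp : p.Prime
    · rw [if_pos hp, if_pos hp]
      unfold cq
      split_ifs
      · exact Real.rpow_le_rpow_of_exponent_le (by exact_mod_cast hp.one_lt.le) (neg_le_neg h)
      · exact le_rfl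
    · rw [if_neg hp, if_neg hp]

open Classical in
lemma cset_ne (Q : Set ℕ) {t : ℝ} (ht : 1 < t) :
    Summable fun p : ℕ => if p.Prime ∧ p ∈ Q then (p : ℝ) ^ (-t) else 0 := by
  refine Summable.of_nonneg_of_le (fun p => by split_ifs <;> positivity) (fun p => ?_)
    (Real.summable_nat_rpow.2 (by linarith : -t < -1))
  split_ifs
  · exact le_rfl
  · positivity

lemma Cv_of_lt {Q : Set ℕ} {t : ℝ} (h : cexp Q < t) : Cv Qᶜᶜ t := by
  classical
  have hne : {t : ℝ | 0 ≤ t ∧ Summable fun p : ℕ =>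
      if p.Prime ∧ p ∈ Q then (p : ℝ) ^ (-t) else 0}.Nonempty :=
    ⟨2, by norm_num, cset_ne Q (by norm_num)⟩
  obtain ⟨a, ha, hat⟩ := exists_lt_of_csInf_lt hne h
  exact Cv_mono hat.le ((Cv_iff Q a).2 ha.2)

end Pool.Agent.Q163.HC
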