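import Pool.Agent.Q163.HC.Sq
import Pool.Agent.Q163.HC.Num

/-! The classes of arguments at which a polynomial has a given squarefree part. -/

set_option autoImplicit false

namespace Pool.Agent.Q163.HC

open Finset Polynomial

/-- the product of the primes outside which a polynomial stays squarefree divides this number -/
noncomputable def bad (f : ℤ[X]) : ℤ :=
  2 * f.leadingCoeff * resultant f (derivative f) f.natDegree (derivative f).natDegree

lemma bad_ne_zero (f : ℤ[X]) (hs : (f.map (Int.castRingHom ℚ)).Separable) (hd : 1 ≤ f.natDegree) :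
    bad f ≠ 0 := by
  have hf0 : f ≠ 0 := by
    rintro rfl
    simp at hd
  refine mul_ne_zero (mul_ne_zero two_ne_zero (leadingCoeff_ne_zero.2 hf0)) fun h => ?_
  have h1 : IsCoprime (f.map (Int.castRingHom ℚ)) ((derivative f).map (Int.castRingHom ℚ)) := by
    rw [← derivative_map]
    exact (separable_def _).1 hs
  have h2 := resultant_ne_zero _ _ h1
  have hinj : Function.Injective (Int.castRingHom ℚ) := Int.cast_injective
  rw [natDegree_map_eq_of_injective hinj, natDegree_map_eq_of_injective hinj,
    resultant_map_map, h, map_zero] at h2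
  exact h2 rfl

lemma bad_le (f : ℤ[X]) (d H : ℕ) (hd1 : 1 ≤ f.natDegree) (hd : f.natDegree ≤ d) (hH : 1 ≤ H)
    (hc : ∀ i, |f.coeff i| ≤ H) :
    ((bad f).natAbs : ℝ) ≤ 2 * H * ((2 * d).factorial * (d * H) ^ (2 * d)) := by
  have hdH : 1 ≤ d * H := Nat.one_le_iff_ne_zero.2 (Nat.mul_ne_zero (by omega) (by omega))
  have hdeg : (derivative f).natDegree ≤ d := (natDegree_derivative_le f).trans (by omega)
  have h1 : |resultant f (derivative f) f.natDegree (derivative f).natDegree| ≤
      ((2 * d).factorial * (d * H) ^ (2 * d) : ℕ) := by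
    have h2 : ∀ i j, (AbsoluteValue.abs : AbsoluteValue ℤ ℤ)
        (sylvester f (derivative f) f.natDegree (derivative f).natDegree i j) ≤ ((d * H : ℕ) : ℤ) := by
      have hco : ∀ i, |f.coeff i| ≤ ((d * H : ℕ) : ℤ) := by
        intro i
        refine (hc i).trans ?_
        have : H ≤ d * H := Nat.le_mul_of_pos_left H (by omega)
        exact_mod_cast this
      have hcd : ∀ i, |(derivative f).coeff i| ≤ ((d * H : ℕ) : ℤ) := by
        intro i
        rw [coeff_derivative, abs_mul]
        by_cases hi : i + 1 ≤ d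
        · have h3 : |((i : ℤ) + 1)| ≤ d := by
            rw [abs_of_nonneg (by positivity)]
            exact_mod_cast hi
          calc |f.coeff (i + 1)| * |((i : ℤ) + 1)| ≤ H * d :=
                mul_le_mul (hc _) h3 (abs_nonneg _) (by positivity)
            _ = ((d * H : ℕ) : ℤ) := by push_cast; ring
        · rw [coeff_eq_zero_of_natDegree_lt (by omega), abs_zero, zero_mul]
          positivity
      intro i j
      rw [AbsoluteValue.abs_apply]
      unfold sylvester
      rw [Matrix.of_apply]
      refine j.addCases (fun j₁ => ?_) fun j₁ => ?_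
      · rw [Fin.addCases_left]
        split_ifs
        · exact hcd _
        · rw [abs_zero]
          positivity
      · rw [Fin.addCases_right]
        split_ifs
        · exact hco _
        · rw [abs_zero]
          positivity
    have h3 := Matrix.det_le h2
    rw [AbsoluteValue.abs_apply, Fintype.card_fin, nsmul_eq_mul] at h3
    refine h3.trans ?_
    have h4 : f.natDegree + (derivative f).natDegree ≤ 2 * d := by omega
    have h5 : (f.natDegree + (derivative f).natDegree).factorial ≤ (2 * d).factorial :=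
      Nat.factorial_le h4
    have h6 : (d * H) ^ (f.natDegree + (derivative f).natDegree) ≤ (d * H) ^ (2 * d) :=
      Nat.pow_le_pow_right hdH h4
    exact_mod_cast Nat.mul_le_mul h5 h6
  have h2 : |bad f| ≤ 2 * H * ((2 * d).factorial * (d * H) ^ (2 * d) : ℕ) := by
    unfold bad
    rw [abs_mul, abs_mul, abs_two]
    refine mul_le_mul (mul_le_mul_of_nonneg_left (hc _) (by norm_num)) h1 (abs_nonneg _)
      (by positivity)
  have h3 : ((bad f).natAbs : ℤ) ≤ (2 * H * ((2 * d).factorial * (d * H) ^ (2 * d)) : ℕ) := by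
    rw [Int.natCast_natAbs]
    refine h2.trans (le_of_eq ?_)
    push_cast
    ring
  exact_mod_cast h3

/-- outside the bad primes the reduction is not a constant times a square -/
lemma good_red (f : ℤ[X]) (hd : 1 ≤ f.natDegree) (p : ℕ) [Fact p.Prime]
    (hp : ¬ (p : ℤ) ∣ bad f) :
    p ≠ 2 ∧ (f.map (Int.castRingHom (ZMod p))).natDegree = f.natDegree ∧
    ∀ (c : ZMod p) (h : (ZMod p)[X]), f.map (Int.castRingHom (ZMod p)) ≠ C c * h ^ 2 := by
  have hp2 : p ≠ 2 := by
    rintro rfl
    exact hp (by unfold bad; exact ((dvd_refl _).mul_right _).mul_right _)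
  have hlc : ¬ (p : ℤ) ∣ f.leadingCoeff := fun h => hp (by
    unfold bad
    exact (h.mul_left _).mul_right _)
  have hres : ¬ (p : ℤ) ∣ resultant f (derivative f) f.natDegree (derivative f).natDegree :=
    fun h => hp (by
      unfold bad
      exact h.mul_left _)
  have hdeg : (f.map (Int.castRingHom (ZMod p))).natDegree = f.natDegree := by
    refine natDegree_map_of_leadingCoeff_ne_zero _ ?_
    rw [eq_intCast, Ne, ZMod.intCast_zmod_eq_zero_iff_dvd]
    exact hlc
  refine ⟨hp2, hdeg, fun c h hch => ?_⟩
  obtain ⟨u, v, _, _, huv⟩ := exists_mul_add_mul_eq_C_resultant (m := f.natDegree)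
    (n := (derivative f).natDegree) f (derivative f) le_rfl le_rfl (Or.inl (by omega))
  have h1 := congrArg (Polynomial.map (Int.castRingHom (ZMod p))) huv
  rw [Polynomial.map_add, Polynomial.map_mul, Polynomial.map_mul, map_C, ← derivative_map,
    hch] at h1
  have h2 : h ∣ C ((Int.castRingHom (ZMod p))
      (resultant f (derivative f) f.natDegree (derivative f).natDegree)) := by
    rw [← h1]
    refine dvd_add (Dvd.dvd.mul_right ?_ _) (Dvd.dvd.mul_right ?_ _)
    · exact (dvd_pow_self h two_ne_zero).mul_left _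
    · rw [derivative_C_mul, derivative_pow]
      refine Dvd.dvd.mul_left ?_ _
      refine Dvd.dvd.mul_right (Dvd.dvd.mul_left ?_ _) _
      simp
  have h3 : (Int.castRingHom (ZMod p))
      (resultant f (derivative f) f.natDegree (derivative f).natDegree) ≠ 0 := by
    rw [eq_intCast, Ne, ZMod.intCast_zmod_eq_zero_iff_dvd]
    exact hres
  have h4 : IsUnit h := isUnit_of_dvd_unit h2 (isUnit_C.2 (isUnit_iff_ne_zero.2 h3))
  have h5 : h.natDegree = 0 := natDegree_eq_zero_of_isUnit h4
  have h6 : (C c * h ^ 2).natDegree = 0 := by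
    refine Nat.eq_zero_of_le_zero ((natDegree_C_mul_le _ _).trans ?_)
    rw [natDegree_pow, h5, mul_zero]
  rw [hch, h6] at hdeg
  omega

/-- `|n| = m y ^ 2` with `m` the product of the primes with odd exponent -/
lemma sq_part (n : ℕ) (hn : n ≠ 0) : ∃ y : ℕ, n = (∏ p ∈ od n, p) * y ^ 2 := by
  classical
  refine ⟨∏ p ∈ n.primeFactors, p ^ (n.factorization p / 2), ?_⟩
  have h1 : ∏ p ∈ od n, p = ∏ p ∈ n.primeFactors, p ^ (n.factorization p % 2) := by
    unfold od
    rw [prod_filter]
    refine prod_congr rfl fun p _ => ?_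
    split_ifs with h
    · rw [Nat.odd_iff.1 h, pow_one]
    · rw [Nat.even_iff.1 (Nat.not_odd_iff_even.1 h), pow_zero]
  rw [h1, ← prod_pow, ← prod_mul_distrib]
  conv_lhs => rw [← Nat.prod_factorization_pow_eq_self hn]
  rw [Nat.prod_factorization_eq_prod_primeFactors]
  refine prod_congr rfl fun p _ => ?_
  rw [← pow_mul, ← pow_add]
  congr 1
  omega

/-- the value at `b + q k` -/
noncomputable def pv (f : ℤ[X]) (b : ℤ) (q k : ℕ) : ℤ := f.eval (b + q * k)

/-- **Size of the classes** -/
theorem class_bound (d : ℕ) : ∃ C : ℝ, 0 < C ∧ ∀ (f : ℤ[X]) (b : ℤ) (q L M : ℕ) (U : Finset ℕ),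
    (f.map (Int.castRingHom ℚ)).Separable → 1 ≤ f.natDegree → f.natDegree ≤ d → 1 ≤ q → 1 ≤ L →
    (∀ k ∈ Icc 1 L, (pv f b q k).natAbs ≤ M) →
    (((Icc 1 L).filter fun k => pv f b q k ≠ 0 ∧
      od (pv f b q k).natAbs = U).card : ℝ) ≤
      C * Real.sqrt L * (Real.log ((bad f).natAbs) + Real.log q + Real.log M + 2) := by
  classical
  obtain ⟨C, hC0, hC⟩ := sieve_bound d
  refine ⟨2 * C, by positivity, fun f b q L M U hs hd1 hd hq hL hM => ?_⟩
  set S : Finset ℕ := (Icc 1 L).filter fun k => pv f b q k ≠ 0 ∧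
      od (pv f b q k).natAbs = U with hS
  have hb0 : bad f ≠ 0 := bad_ne_zero f hs hd1
  have hb1 : 1 ≤ (bad f).natAbs := Int.natAbs_pos.2 hb0
  have hlb : 0 ≤ Real.log ((bad f).natAbs) := Real.log_natCast_nonneg _
  have hlq : 0 ≤ Real.log q := Real.log_natCast_nonneg _
  have hlM : 0 ≤ Real.log M := Real.log_natCast_nonneg _
  rcases S.eq_empty_or_nonempty with h0 | ⟨k0, hk0⟩
  · rw [h0, card_empty, Nat.cast_zero]
    positivity
  set m : ℕ := ∏ p ∈ U, p with hm
  have hk0' := mem_filter.1 hk0
  have hm1 : 1 ≤ m ∧ m ≤ M := by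
    have h1 := Int.natAbs_pos.2 hk0'.2.1
    obtain ⟨y, hy⟩ := sq_part _ h1.ne'
    rw [hk0'.2.2, ← hm] at hy
    have h2 : m ≠ 0 := by
      rintro h2
      rw [h2, zero_mul] at hy
      omega
    have h3 : y ≠ 0 := by
      rintro rfl
      rw [zero_pow two_ne_zero, mul_zero] at hy
      omega
    have h4 : 1 ≤ y ^ 2 := Nat.one_le_pow _ _ (by omega)
    have h5 := hM k0 hk0'.1
    refine ⟨by omega, le_trans ?_ h5⟩
    rw [hy]
    exact Nat.le_mul_of_pos_right m (by omega)
  have hsign : ∀ s : ℤ, s = 1 ∨ s = -1 →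
      ((S.filter fun k => pv f b q k = s * (pv f b q k).natAbs).card : ℝ) ≤
      C * Real.sqrt L * (Real.log ((bad f).natAbs) + Real.log q + Real.log M + 2) := by
    intro s hs1
    set S' := S.filter fun k => pv f b q k = s * (pv f b q k).natAbs
      with hS'
    have hN1 : 1 ≤ (bad f).natAbs * q * m := Nat.mul_pos (Nat.mul_pos hb1 hq) hm1.1
    have h1 := hC S' L ((bad f).natAbs * q * m) hL hN1 (fun k hk =>
      (mem_Icc.1 (mem_filter.1 (mem_filter.1 hk).1).1).2) ?_
    · refine h1.trans (mul_le_mul_of_nonneg_left ?_ (by positivity))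
      have h2 : Real.log (((bad f).natAbs * q * m : ℕ) : ℝ) =
          Real.log ((bad f).natAbs) + Real.log q + Real.log m := by
        push_cast
        rw [Real.log_mul, Real.log_mul]
        · exact_mod_cast (by omega : (bad f).natAbs ≠ 0)
        · exact_mod_cast (by omega : q ≠ 0)
        · have h3 : ((bad f).natAbs : ℝ) ≠ 0 := by exact_mod_cast (by omega : (bad f).natAbs ≠ 0)
          have h4 : (q : ℝ) ≠ 0 := by exact_mod_cast (by omega : q ≠ 0)
          exact mul_ne_zero h3 h4
        · exact_mod_cast (by omega : m ≠ 0)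
      have h3 : Real.log m ≤ Real.log M :=
        Real.log_le_log (by exact_mod_cast hm1.1) (by exact_mod_cast hm1.2)
      rw [h2]
      linarith
    · intro p hp hpN
      have : Fact p.Prime := ⟨hp⟩
      have hpb : ¬ (p : ℤ) ∣ bad f := fun h => hpN
        (((Int.natCast_dvd.1 h).mul_right _).mul_right _)
      have hpq : ¬ p ∣ q := fun h => hpN ((h.mul_left _).mul_right _)
      have hpm : ¬ p ∣ m := fun h => hpN (h.mul_left _)
      obtain ⟨hp2, hdeg, hns⟩ := good_red f hd1 p hpb
      have hsm : ((s * (m : ℤ) : ℤ) : ZMod p) ≠ 0 := by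
        rw [Ne, ZMod.intCast_zmod_eq_zero_iff_dvd]
        intro h
        have h2 : (p : ℤ) ∣ m := by
          rcases hs1 with h3 | h3
          · rwa [h3, one_mul] at h
          · rw [h3, neg_one_mul] at h
            exact (dvd_neg.1 h)
        exact hpm (Int.natCast_dvd_natCast.1 h2)
      set t : ℤ := quadraticChar (ZMod p) ((s * (m : ℤ) : ℤ) : ZMod p) with ht
      have ht1 : t = 1 ∨ t = -1 := quadraticChar_dichotomy hsm
      have h2 := res_count p hp2 (f.map (Int.castRingHom (ZMod p))) (by omega) hns t ht1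
      have h3 : ((S'.image fun k : ℕ => (k : ZMod p)).image
          fun x => (b : ZMod p) + (q : ZMod p) * x) ⊆
          univ.filter fun x : ZMod p =>
            quadraticChar (ZMod p) ((f.map (Int.castRingHom (ZMod p))).eval x) = 0 ∨
            quadraticChar (ZMod p) ((f.map (Int.castRingHom (ZMod p))).eval x) = t := by
        intro x hx
        obtain ⟨x', hx', rfl⟩ := mem_image.1 hx
        obtain ⟨k, hk, rfl⟩ := mem_image.1 hx'
        rw [mem_filter]
        refine ⟨mem_univ _, ?_⟩
        have hk1 := mem_filter.1 hk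
        have hk2 := mem_filter.1 hk1.1
        obtain ⟨y, hy⟩ := sq_part _ (Int.natAbs_pos.2 hk2.2.1).ne'
        rw [hk2.2.2, ← hm] at hy
        have e1 : (f.map (Int.castRingHom (ZMod p))).eval ((b : ZMod p) + (q : ZMod p) * (k : ZMod p)) =
            ((pv f b q k : ℤ) : ZMod p) := by
          unfold pv
          have e2 : ((b : ZMod p) + (q : ZMod p) * (k : ZMod p)) =
              (Int.castRingHom (ZMod p)) (b + q * (k : ℤ)) := by
            rw [eq_intCast]
            push_cast
            ring
          rw [e2, eval_map, eval₂_at_apply, eq_intCast]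
        rw [e1, hk1.2, hy]
        have e3 : ((s * (((m * y ^ 2 : ℕ) : ℤ)) : ℤ) : ZMod p) =
            ((s * (m : ℤ) : ℤ) : ZMod p) * ((y : ZMod p)) ^ 2 := by
          push_cast
          ring
        rw [e3, map_mul, ← ht]
        by_cases hy0 : (y : ZMod p) = 0
        · left
          rw [hy0, zero_pow two_ne_zero, quadraticChar_zero, mul_zero]
        · right
          rw [quadraticChar_sq_one' hy0, mul_one]
      have h4 : ((S'.image fun k : ℕ => (k : ZMod p)).image
          fun x => (b : ZMod p) + (q : ZMod p) * x).card = (S'.image fun k : ℕ => (k : ZMod p)).card := by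
        refine card_image_of_injective _ fun x y hxy => ?_
        have hq0 : (q : ZMod p) ≠ 0 := by
          rw [Ne, ZMod.natCast_eq_zero_iff]
          exact hpq
        exact mul_left_cancel₀ hq0 (add_left_cancel hxy)
      have h5 := card_le_card h3
      rw [h4] at h5
      refine (Nat.cast_le.2 h5).trans (h2.trans ?_)
      rw [hdeg]
      have h6 : (f.natDegree : ℝ) ≤ d := by exact_mod_cast hd
      have h7 : 0 ≤ Real.sqrt p := Real.sqrt_nonneg _
      nlinarith
  have hun : S ⊆ (S.filter fun k => pv f b q k =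
      1 * (pv f b q k).natAbs) ∪
      (S.filter fun k => pv f b q k =
      (-1) * (pv f b q k).natAbs) := by
    intro k hk
    rw [mem_union, mem_filter (s := S), mem_filter (s := S)]
    rcases Int.natAbs_eq (pv f b q k) with h | h
    · left
      exact ⟨hk, by rw [one_mul]; exact h⟩
    · right
      exact ⟨hk, by rw [neg_one_mul]; exact h⟩
  have h1 := hsign 1 (Or.inl rfl)
  have h2 := hsign (-1) (Or.inr rfl)
  have h3 := (card_le_card hun).trans (card_union_le _ _)
  have h4 : (S.card : ℝ) ≤ _ := Nat.cast_le.2 h3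
  rw [Nat.cast_add] at h4
  linarith

end Pool.Agent.Q163.HC
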