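import Mathlib

/-! Squarefree polynomials over the integers and over the rationals; sums over residue classes. -/

set_option autoImplicit false

namespace Pool.Agent.Q163.HC

open Finset Polynomial

lemma sqf_map (f : ℤ[X]) (hs : Squarefree f) :
    Squarefree (f.map (Int.castRingHom ℚ)) := by
  intro g hg
  have hf0 : f ≠ 0 := hs.ne_zero
  have hinj : Function.Injective (Int.castRingHom ℚ) := Int.cast_injective
  have hfm : f.map (Int.castRingHom ℚ) ≠ 0 := (Polynomial.map_ne_zero_iff hinj).2 hf0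
  have hg0 : g ≠ 0 := by
    rintro rfl
    rw [zero_mul, zero_dvd_iff] at hg
    exact hfm hg
  obtain ⟨b, hb, hbg⟩ := IsLocalization.integerNormalization_spec (nonZeroDivisors ℤ) g
  have hb0 : b ≠ 0 := nonZeroDivisors.ne_zero hb
  set N := IsLocalization.integerNormalization (nonZeroDivisors ℤ) g with hN
  have h1 : N.map (Int.castRingHom ℚ) = C (b : ℚ) * g := by
    have h2 : N.map (Int.castRingHom ℚ) = b • g := hbg
    rw [h2, Algebra.smul_def]
    rfl
  have hN0 : N ≠ 0 := by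
    intro h
    rw [h, Polynomial.map_zero] at h1
    have h2 : C (b : ℚ) * g ≠ 0 := mul_ne_zero (C_ne_zero.2 (by exact_mod_cast hb0)) hg0
    exact h2 h1.symm
  have hc0 : N.content ≠ 0 := content_eq_zero_iff.not.2 hN0
  have h2 : C (N.content : ℚ) * N.primPart.map (Int.castRingHom ℚ) = C (b : ℚ) * g := by
    rw [← h1]
    conv_rhs => rw [N.eq_C_content_mul_primPart]
    rw [Polynomial.map_mul, map_C, eq_intCast]
  have hu1 : IsUnit (C (N.content : ℚ)) :=
    isUnit_C.2 (isUnit_iff_ne_zero.2 (by exact_mod_cast hc0))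
  have hu2 : IsUnit (C (b : ℚ)) := isUnit_C.2 (isUnit_iff_ne_zero.2 (by exact_mod_cast hb0))
  have h3 : Associated (N.primPart.map (Int.castRingHom ℚ)) g := by
    obtain ⟨u1, hu1⟩ := hu1
    obtain ⟨u2, hu2⟩ := hu2
    rw [← hu1, ← hu2] at h2
    refine ⟨u1 * u2⁻¹, ?_⟩
    rw [Units.val_mul, ← mul_assoc, mul_comm _ (u1 : ℚ[X]), h2, mul_comm (u2 : ℚ[X]) g, mul_assoc,
      Units.mul_inv, mul_one]
  have h4 : (N.primPart * N.primPart).map (Int.castRingHom ℚ) ∣ f.map (Int.castRingHom ℚ) := by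
    rw [Polynomial.map_mul]
    exact ((h3.mul_mul h3).dvd).trans hg
  have hpp : (N.primPart * N.primPart).IsPrimitive :=
    N.isPrimitive_primPart.mul N.isPrimitive_primPart
  have h5 := (IsPrimitive.Int.dvd_iff_map_cast_dvd_map_cast _ _ hpp).2 h4
  have h6 := hs _ h5
  have h7 : IsUnit (N.primPart.map (Int.castRingHom ℚ)) := h6.map (mapRingHom (Int.castRingHom ℚ))
  exact h3.isUnit h7

lemma sum_class (F : ℤ → ℝ) (N a q : ℕ) (hq : 0 < q) :
    ∃ a1 : ℕ, 1 ≤ a1 ∧ a1 ≤ q ∧
      ∑ t ∈ (Icc 1 N).filter (fun t => t % q = a % q), F t =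
      ∑ k ∈ Icc 1 ((N + q - a1) / q), F ((a1 : ℤ) - q + q * k) := by
  set a1 : ℕ := if a % q = 0 then q else a % q with ha1
  have hlt := Nat.mod_lt a hq
  have h1 : 1 ≤ a1 ∧ a1 ≤ q ∧ a1 % q = a % q := by
    rw [ha1]
    split_ifs with h
    · exact ⟨hq, le_rfl, by rw [Nat.mod_self, h]⟩
    · exact ⟨by omega, hlt.le, Nat.mod_mod _ _⟩
  refine ⟨a1, h1.1, h1.2.1, ?_⟩
  symm
  refine sum_nbij' (fun k => a1 + q * (k - 1)) (fun t => (t - a1) / q + 1) ?_ ?_ ?_ ?_ ?_
  · intro k hk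
    rw [mem_Icc] at hk
    rw [mem_filter, mem_Icc]
    have h2 : k * q ≤ N + q - a1 := (Nat.le_div_iff_mul_le hq).1 hk.2
    have h3 : q * (k - 1) + q = k * q := by
      obtain ⟨j, rfl⟩ : ∃ j, k = j + 1 := ⟨k - 1, by omega⟩
      rw [Nat.add_sub_cancel]
      ring
    refine ⟨⟨by omega, by omega⟩, ?_⟩
    rw [Nat.add_mul_mod_self_left]
    exact h1.2.2
  · intro t ht
    rw [mem_filter, mem_Icc] at ht
    have h2 : a1 ≤ t := by
      by_contra hc
      have h3 : t < a1 := not_le.1 hc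
      have h4 : t < q := by omega
      rw [Nat.mod_eq_of_lt h4, ← h1.2.2] at ht
      rcases Nat.lt_or_ge a1 q with h5 | h5
      · rw [Nat.mod_eq_of_lt h5] at ht
        omega
      · have h6 : a1 = q := le_antisymm h1.2.1 h5
        rw [h6, Nat.mod_self] at ht
        omega
    rw [mem_Icc]
    refine ⟨Nat.le_add_left 1 _, ?_⟩
    rw [Nat.le_div_iff_mul_le hq]
    have h3 : (t - a1) / q * q ≤ t - a1 := Nat.div_mul_le_self _ _
    have : ((t - a1) / q + 1) * q = (t - a1) / q * q + q := by ring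
    omega
  · intro k hk
    rw [mem_Icc] at hk
    have h3 : a1 + q * (k - 1) - a1 = q * (k - 1) := by omega
    rw [h3, Nat.mul_div_cancel_left _ hq]
    omega
  · intro t ht
    rw [mem_filter, mem_Icc] at ht
    have h2 : a1 ≤ t := by
      by_contra hc
      have h3 : t < a1 := not_le.1 hc
      have h4 : t < q := by omega
      rw [Nat.mod_eq_of_lt h4, ← h1.2.2] at ht
      rcases Nat.lt_or_ge a1 q with h5 | h5
      · rw [Nat.mod_eq_of_lt h5] at ht
        omega
      · have h6 : a1 = q := le_antisymm h1.2.1 h5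
        rw [h6, Nat.mod_self] at ht
        omega
    have h3 : q ∣ t - a1 := (Nat.modEq_iff_dvd' h2).1 (h1.2.2.trans ht.2.symm)
    rw [Nat.add_sub_cancel, Nat.mul_div_cancel' h3]
    omega
  · intro k hk
    rw [mem_Icc] at hk
    congr 1
    obtain ⟨j, rfl⟩ : ∃ j, k = j + 1 := ⟨k - 1, by omega⟩
    push_cast
    ring

end Pool.Agent.Q163.HC
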