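import Pool.Agent.Q163.HC.Num
import Pool.Agent.Q163.HC.Sqf
import Pool.Agent.Q163.EX.Exp

/-! Twisted sums over primes in progressions. -/

set_option autoImplicit false

namespace Pool.Agent.Q163.HC

open Finset Filter Topology MeasureTheory Pool.Agent.Q163.RP Pool.Agent.Q163.RX
  Pool.Agent.Q163.GC Pool.Agent.Q163.WM Pool.Agent.Q163.EX

lemma inv_tot (n : ℕ) (hn : 1 ≤ n) : 1 / (Nat.totient n : ℝ) ≤ (n.divisors.card : ℝ) / n := by
  have h1 : n ≤ n.divisors.card * Nat.totient n := by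
    calc n = ∑ d ∈ n.divisors, Nat.totient d := (Nat.sum_totient n).symm
      _ ≤ ∑ _d ∈ n.divisors, Nat.totient n := by
          refine sum_le_sum fun d hd => ?_
          exact Nat.le_of_dvd (Nat.totient_pos.mpr hn)
            (Nat.totient_dvd_of_dvd (Nat.dvd_of_mem_divisors hd))
      _ = _ := by rw [sum_const, smul_eq_mul]
  have h2 : (0 : ℝ) < Nat.totient n := by exact_mod_cast Nat.totient_pos.mpr hn
  have h3 : (0 : ℝ) < n := by exact_mod_cast hn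
  rw [div_le_div_iff₀ h2 h3, one_mul]
  exact_mod_cast h1

lemma sum_inv_tot (D : ℕ) : ∑ n ∈ Icc 1 D, 1 / (Nat.totient n : ℝ) ≤ (1 + Real.log D) ^ 2 := by
  refine (sum_le_sum fun n hn => inv_tot n (mem_Icc.1 hn).1).trans ?_
  have e1 : ∑ n ∈ Icc 1 D, (n.divisors.card : ℝ) / n =
      ∑ x ∈ (Icc 1 D).sigma (fun n => n.divisors), 1 / (x.2 : ℝ) * (1 / ((x.1 / x.2 : ℕ) : ℝ)) := by
    rw [sum_sigma]
    refine sum_congr rfl fun n hn => ?_
    have h1 : ∀ d ∈ n.divisors, 1 / (d : ℝ) * (1 / ((n / d : ℕ) : ℝ)) = 1 / (n : ℝ) := by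
      intro d hd
      have h2 := Nat.mul_div_cancel' (Nat.dvd_of_mem_divisors hd)
      rw [one_div_mul_one_div, ← Nat.cast_mul, h2]
    rw [sum_congr rfl h1, sum_const, nsmul_eq_mul, mul_one_div]
  have hinj : Set.InjOn (fun x : (_ : ℕ) × ℕ => (x.2, x.1 / x.2))
      ((Icc 1 D).sigma (fun n => n.divisors) : Finset ((_ : ℕ) × ℕ)) := by
    intro x hx y hy hxy
    rw [mem_coe, mem_sigma, Nat.mem_divisors] at hx hy
    simp only [Prod.mk.injEq] at hxy
    obtain ⟨e1, e2⟩ := hxy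
    have e3 : x.1 = y.1 := by
      rw [← Nat.mul_div_cancel' hx.2.1, ← Nat.mul_div_cancel' hy.2.1, e2, e1]
    exact Sigma.ext e3 (heq_of_eq e1)
  have e2 : ∑ x ∈ (Icc 1 D).sigma (fun n => n.divisors),
      1 / (x.2 : ℝ) * (1 / ((x.1 / x.2 : ℕ) : ℝ)) =
      ∑ y ∈ ((Icc 1 D).sigma (fun n => n.divisors)).image
        (fun x : (_ : ℕ) × ℕ => ((x.2, x.1 / x.2) : ℕ × ℕ)),
        1 / (y.1 : ℝ) * (1 / (y.2 : ℝ)) := by
    rw [sum_image hinj]
  rw [e1, e2]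
  have h3 : ((Icc 1 D).sigma (fun n => n.divisors)).image
      (fun x : (_ : ℕ) × ℕ => ((x.2, x.1 / x.2) : ℕ × ℕ)) ⊆
      Icc 1 D ×ˢ Icc 1 D := by
    intro y hy
    obtain ⟨x, hx, rfl⟩ := mem_image.1 hy
    rw [mem_sigma, mem_Icc, Nat.mem_divisors] at hx
    have h4 : 0 < x.2 := Nat.pos_of_dvd_of_pos hx.2.1 (by omega)
    have h5 := Nat.le_of_dvd (by omega) hx.2.1
    rw [mem_product, mem_Icc, mem_Icc]
    exact ⟨⟨h4, by simp only; omega⟩, Nat.div_pos h5 h4,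
      (Nat.div_le_self _ _).trans hx.1.2⟩
  refine (sum_le_sum_of_subset_of_nonneg h3 fun _ _ _ => by positivity).trans ?_
  rw [sum_product]
  simp only
  rw [← sum_mul_sum, sq]
  have := harm D
  exact mul_le_mul this this (sum_nonneg fun _ _ => by positivity)
    (add_nonneg zero_le_one (Real.log_natCast_nonneg D))

/-- the sum of powers -/
lemma sum_pow_le (Q : ℕ) (σ : ℝ) (hσ1 : σ ≤ 1) :
    ∑ q ∈ Icc 1 Q, (1 / (q : ℝ)) ^ σ ≤ (Q : ℝ) ^ (1 - σ) * (1 + Real.log Q) := by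
  have h1 : ∀ q ∈ Icc 1 Q, (1 / (q : ℝ)) ^ σ ≤ (Q : ℝ) ^ (1 - σ) * (1 / (q : ℝ)) := by
    intro q hq
    rw [mem_Icc] at hq
    have hq0 : (0 : ℝ) < q := by exact_mod_cast hq.1
    have hqQ : (q : ℝ) ≤ Q := by exact_mod_cast hq.2
    rw [one_div, Real.inv_rpow hq0.le, ← Real.rpow_neg hq0.le]
    have h2 : (q : ℝ) ^ (-σ) = (q : ℝ) ^ (1 - σ) * (q : ℝ)⁻¹ := by
      rw [← Real.rpow_neg_one, ← Real.rpow_add hq0]
      congr 1
      ring
    rw [h2]
    exact mul_le_mul_of_nonneg_right (Real.rpow_le_rpow hq0.le hqQ (by linarith)) (by positivity)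
  refine (sum_le_sum h1).trans ?_
  rw [← mul_sum]
  exact mul_le_mul_of_nonneg_left (harm Q) (by positivity)

/-- the diagonal progression -/
lemma diag_eq (F : ℕ → ℝ) (N q : ℕ) (hN : 1 ≤ N) (hq : 1 ≤ q) :
    ∑ n ∈ (Ico 1 N).filter (fun n => n ≡ N [MOD q]), F n =
      ∑ m ∈ Icc 1 ((N - 1) / q), F (N - q * m) := by
  symm
  refine sum_nbij' (fun m => N - q * m) (fun n => (N - n) / q) ?_ ?_ ?_ ?_ ?_
  · intro m hm
    rw [mem_Icc, Nat.le_div_iff_mul_le (by omega)] at hm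
    have h1 : q * m = m * q := mul_comm _ _
    have h2 : 0 < q * m := Nat.mul_pos (by omega) (by omega)
    rw [mem_filter, mem_Ico]
    refine ⟨by omega, ?_⟩
    rw [Nat.modEq_iff_dvd' (by omega)]
    exact ⟨m, by omega⟩
  · intro n hn
    rw [mem_filter, mem_Ico, Nat.modEq_iff_dvd' (by omega)] at hn
    obtain ⟨k, hk⟩ := hn.2
    rw [hk, Nat.mul_div_cancel_left _ (by omega), mem_Icc, Nat.le_div_iff_mul_le (by omega)]
    have h1 : q * k = k * q := mul_comm _ _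
    refine ⟨?_, by omega⟩
    rcases Nat.eq_zero_or_pos k with h | h
    · rw [h] at hk
      omega
    · exact h
  · intro m hm
    rw [mem_Icc, Nat.le_div_iff_mul_le (by omega)] at hm
    have h1 : q * m = m * q := mul_comm _ _
    have h3 : N - (N - q * m) = q * m := by omega
    rw [h3, Nat.mul_div_cancel_left _ (by omega)]
  · intro n hn
    rw [mem_filter, mem_Ico, Nat.modEq_iff_dvd' (by omega)] at hn
    rw [Nat.mul_div_cancel' hn.2]
    omega
  · intro m _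
    rfl

/-- the logarithmic factor -/
noncomputable def lg (l : Bool) (m : ℕ) : ℝ := if l then Real.log m else 1

/-- the weights -/
noncomputable def wt (l : Bool) (N q m : ℕ) : ℝ :=
  if q * m < N ∧ Nat.Coprime q m then
    ArithmeticFunction.vonMangoldt (N - q * m) * ((ArithmeticFunction.moebius m : ℤ) : ℝ) *
      lg l (q * m) / Real.log (N + 1) ^ 2
  else 0

lemma wt_le (l : Bool) (N q m : ℕ) : |wt l N q m| ≤ 4 := by
  unfold wt
  by_cases h : q * m < N ∧ Nat.Coprime q m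
  · rw [if_pos h]
    have hN : 0 < N := by omega
    have hL : Real.log 2 ≤ Real.log (N + 1) := Real.log_le_log (by norm_num) (by
      have : (1 : ℝ) ≤ N := by exact_mod_cast hN
      linarith)
    have hl2 : (1 : ℝ) / 2 ≤ Real.log 2 := by
      have := Real.log_two_gt_d9
      linarith
    have hL0 : 0 < Real.log (N + 1) := by linarith
    have h1 : ArithmeticFunction.vonMangoldt (N - q * m) ≤ Real.log (N + 1) := by
      refine ArithmeticFunction.vonMangoldt_le_log.trans ?_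
      have h2 : 0 < N - q * m := by omega
      refine Real.log_le_log (by exact_mod_cast h2) ?_
      have h3 : N - q * m ≤ N + 1 := by omega
      exact_mod_cast h3
    have h2 : |lg l (q * m)| ≤ 2 * Real.log (N + 1) := by
      unfold lg
      split_ifs
      · rw [abs_of_nonneg (Real.log_natCast_nonneg _)]
        rcases Nat.eq_zero_or_pos (q * m) with h3 | h3
        · rw [h3, Nat.cast_zero, Real.log_zero]
          linarith
        · have h4 : Real.log (q * m : ℕ) ≤ Real.log (N + 1) := by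
            refine Real.log_le_log (by exact_mod_cast h3) ?_
            have h5 : q * m ≤ N + 1 := by omega
            exact_mod_cast h5
          linarith
      · rw [abs_one]
        linarith
    have h3 : |((ArithmeticFunction.moebius m : ℤ) : ℝ)| ≤ 1 := by
      exact_mod_cast ArithmeticFunction.abs_moebius_le_one
    rw [abs_div, abs_mul, abs_mul, abs_of_nonneg ArithmeticFunction.vonMangoldt_nonneg,
      abs_of_nonneg (sq_nonneg (Real.log (N + 1))), div_le_iff₀ (by positivity)]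
    calc _ ≤ (Real.log (N + 1) * 1) * (2 * Real.log (N + 1)) :=
          mul_le_mul (mul_le_mul h1 h3 (abs_nonneg _) hL0.le) h2 (abs_nonneg _) (by positivity)
      _ ≤ 4 * Real.log (N + 1) ^ 2 := by nlinarith [sq_nonneg (Real.log (N + 1))]
  · rw [if_neg h, abs_zero]
    norm_num

/-- the functions `μ f` and `μ f log` -/
noncomputable def gf (f : ℕ → ℝ) (l : Bool) (m : ℕ) : ℝ :=
  ((ArithmeticFunction.moebius m : ℤ) : ℝ) * f m * lg l m

/-- the diagonal sum as a weighted sum -/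
lemma diag_wt (c : ℕ → ℝ) (hc : ∀ p, |c p| = 1) (l : Bool) (N q : ℕ) (hN : 1 ≤ N) (hq : 1 ≤ q) :
    |∑ n ∈ (Ico 1 N).filter (fun n => n ≡ N [MOD q]),
      ArithmeticFunction.vonMangoldt n * gf (mult c) l (N - n)| ≤
      Real.log (N + 1) ^ 2 * |∑ m ∈ Icc 1 ((N - 1) / q), wt l N q m * mult c m| := by
  rw [diag_eq _ N q hN hq]
  have hL0 : 0 < Real.log (N + 1) := Real.log_pos (by
    have : (1 : ℝ) ≤ N := by exact_mod_cast hN
    linarith)
  have h1 : ∑ m ∈ Icc 1 ((N - 1) / q), ArithmeticFunction.vonMangoldt (N - q * m) *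
      gf (mult c) l (N - (N - q * m)) =
      ((ArithmeticFunction.moebius q : ℤ) : ℝ) * mult c q * (Real.log (N + 1) ^ 2 *
        ∑ m ∈ Icc 1 ((N - 1) / q), wt l N q m * mult c m) := by
    rw [mul_sum, mul_sum]
    refine sum_congr rfl fun m hm => ?_
    rw [mem_Icc, Nat.le_div_iff_mul_le (by omega)] at hm
    have h2 : q * m = m * q := mul_comm _ _
    have h3 : N - (N - q * m) = q * m := by omega
    rw [h3]
    unfold gf wt
    by_cases hcop : Nat.Coprime q m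
    · rw [if_pos ⟨by omega, hcop⟩,
        ArithmeticFunction.isMultiplicative_moebius.map_mul_of_coprime hcop,
        mult_mul c (by omega) (by omega)]
      push_cast
      field_simp
    · rw [if_neg fun h => hcop h.2]
      have h4 : ArithmeticFunction.moebius (q * m) = 0 := by
        rw [ArithmeticFunction.moebius_eq_zero_of_not_squarefree]
        intro h5
        exact hcop (Nat.coprime_of_squarefree_mul h5)
      rw [h4]
      simp
  rw [h1, abs_mul, abs_mul, abs_mul, abs_of_nonneg (sq_nonneg (Real.log (N + 1))),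
    abs_mult c hc, mul_one]
  have h5 : |((ArithmeticFunction.moebius q : ℤ) : ℝ)| ≤ 1 := by
    exact_mod_cast ArithmeticFunction.abs_moebius_le_one
  refine mul_le_of_le_one_left (by positivity) h5

/-- powers of logarithms -/
lemma polylog (K δ : ℝ) (hδ : 0 < δ) : ∀ᶠ N : ℕ in atTop,
    K * (1 + Real.log (N + 1)) ^ 4 ≤ (N : ℝ) ^ δ := by
  have h1 : ∀ᶠ N : ℕ in atTop, |K| * (4 * (1 + 8 / δ) ^ 4) * 2 ^ (δ / 2) ≤ (N : ℝ) ^ (δ / 2) :=
    ((tendsto_rpow_atTop (by positivity)).comp tendsto_natCast_atTop_atTop).eventually_ge_atTop _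
  filter_upwards [h1, eventually_ge_atTop 1] with N hN hN1
  have hN0 : (1 : ℝ) ≤ N := by exact_mod_cast hN1
  have h2 : Real.log (N + 1) ≤ ((N : ℝ) + 1) ^ (δ / 8) / (δ / 8) :=
    Real.log_le_rpow_div (by positivity) (by positivity)
  have h3 : 1 ≤ ((N : ℝ) + 1) ^ (δ / 8) := Real.one_le_rpow (by linarith) (by positivity)
  have h4 : 1 + Real.log (N + 1) ≤ (1 + 8 / δ) * ((N : ℝ) + 1) ^ (δ / 8) := by
    have h5 : ((N : ℝ) + 1) ^ (δ / 8) / (δ / 8) = 8 / δ * ((N : ℝ) + 1) ^ (δ / 8) := by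
      field_simp
    rw [h5] at h2
    linarith
  have h0 : 0 ≤ 1 + Real.log (N + 1) := by
    have := Real.log_nonneg (show (1 : ℝ) ≤ N + 1 by linarith)
    linarith
  have h5 : (1 + Real.log (N + 1)) ^ 4 ≤ (1 + 8 / δ) ^ 4 * ((N : ℝ) + 1) ^ (δ / 2) := by
    refine (pow_le_pow_left₀ h0 h4 4).trans (le_of_eq ?_)
    rw [mul_pow, ← Real.rpow_natCast (((N : ℝ) + 1) ^ (δ / 8)), ← Real.rpow_mul (by positivity)]
    congr 2
    push_cast
    ring
  have h6 : ((N : ℝ) + 1) ^ (δ / 2) ≤ 2 ^ (δ / 2) * (N : ℝ) ^ (δ / 2) := by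
    rw [← Real.mul_rpow (by norm_num) (by positivity)]
    exact Real.rpow_le_rpow (by positivity) (by linarith) (by positivity)
  have hNδ : (N : ℝ) ^ δ = (N : ℝ) ^ (δ / 2) * (N : ℝ) ^ (δ / 2) := by
    rw [← Real.rpow_add (by linarith)]
    congr 1
    ring
  have h7 : 0 ≤ (N : ℝ) ^ (δ / 2) := by positivity
  calc K * (1 + Real.log (N + 1)) ^ 4 ≤ |K| * (1 + Real.log (N + 1)) ^ 4 :=
        mul_le_mul_of_nonneg_right (le_abs_self K) (by positivity)
    _ ≤ |K| * ((1 + 8 / δ) ^ 4 * (2 ^ (δ / 2) * (N : ℝ) ^ (δ / 2))) := by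
        refine mul_le_mul_of_nonneg_left (h5.trans ?_) (abs_nonneg K)
        exact mul_le_mul_of_nonneg_left h6 (by positivity)
    _ = (|K| * (1 + 8 / δ) ^ 4 * 2 ^ (δ / 2)) * (N : ℝ) ^ (δ / 2) := by ring
    _ ≤ (|K| * (4 * (1 + 8 / δ) ^ 4) * 2 ^ (δ / 2)) * (N : ℝ) ^ (δ / 2) := by
        refine mul_le_mul_of_nonneg_right ?_ h7
        refine mul_le_mul_of_nonneg_right ?_ (by positivity)
        refine mul_le_mul_of_nonneg_left ?_ (abs_nonneg K)
        have : 0 ≤ (1 + 8 / δ) ^ 4 := by positivity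
        linarith
    _ ≤ (N : ℝ) ^ δ := by
        rw [hNδ]
        exact mul_le_mul_of_nonneg_right hN h7

/-- the almost sure bound for the diagonal sums -/
theorem diag_ae (P : Set ℕ) {s : ℕ → ℝ} (hs : ∀ p, s p = 1 ∨ s p = -1) {σ' σ : ℝ} (hσ' : 1 / 2 < σ')
    (hlt : σ' < σ) (hQ : Cv Pᶜ σ') (A : ℕ) :
    ∀ᵐ ω ∂cm, ∀ᶠ R : ℕ in atTop, ∀ N q : ℕ, 1 ≤ N → N ≤ R ^ A → 1 ≤ q → q ≤ R ^ A → ∀ l,
      |∑ m ∈ Icc 1 R, wt l N q m * mult (vl P s ω) m| ≤ 4 * (R : ℝ) ^ σ := by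
  have h := ae_fam P hs hσ' hlt hQ (τ := Bool × ℕ × ℕ)
    (fun R => univ ×ˢ Icc 1 (R ^ A) ×ˢ Icc 1 (R ^ A)) (fun _ t m => wt t.1 t.2.1 t.2.2 m / 4)
    (fun _ t m => by
      rw [abs_div, abs_of_pos (show (0 : ℝ) < 4 by norm_num), div_le_one (by norm_num)]
      exact wt_le _ _ _ _) (2 * A) 2 (by norm_num) (fun R hR => by
      rw [card_product, card_product, card_univ, Fintype.card_bool, Nat.card_Icc,
        Nat.add_sub_cancel]
      push_cast
      rw [two_mul A, pow_add])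
  filter_upwards [h] with ω hω
  filter_upwards [hω] with R hR N q hN1 hN2 hq1 hq2 l
  have h1 := hR (l, N, q) (by
    rw [mem_product, mem_product]
    exact ⟨mem_univ _, mem_Icc.2 ⟨hN1, hN2⟩, mem_Icc.2 ⟨hq1, hq2⟩⟩)
  simp only at h1
  have h2 : ∑ m ∈ Icc 1 R, wt l N q m / 4 * mult (vl P s ω) m =
      (∑ m ∈ Icc 1 R, wt l N q m * mult (vl P s ω) m) / 4 := by
    rw [sum_div]
    refine sum_congr rfl fun m _ => ?_
    ring
  rw [h2, abs_div, abs_of_pos (show (0 : ℝ) < 4 by norm_num), div_le_iff₀ (by norm_num)] at h1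
  linarith

/-- the sum over the moduli of the diagonal discrepancies -/
noncomputable def Dg (g : ℕ → ℝ) (N : ℕ) (θ : ℝ) : ℝ :=
  ∑ q ∈ (Icc 1 N).filter (fun q : ℕ => (q : ℝ) ≤ (N : ℝ) ^ θ ∧ Nat.Coprime q N),
    |∑ n ∈ (Ico 1 N).filter (fun n => n ≡ N [MOD q]), ArithmeticFunction.vonMangoldt n * g (N - n) -
      1 / (Nat.totient q : ℝ) * ∑ n ∈ Ico 1 N, ArithmeticFunction.vonMangoldt n * g (N - n)|

theorem Dg_le (c : ℕ → ℝ) (hc : ∀ p, |c p| = 1) (l : Bool) (N : ℕ) (hN : 1 ≤ N) (θ σ : ℝ) (hθ0 : 0 ≤ θ)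
    (hθ : θ ≤ 1) (hσ0 : 0 ≤ σ) (hσ : σ ≤ 1) (H : ∀ q : ℕ, 1 ≤ q → (q : ℝ) ≤ (N : ℝ) ^ θ →
      |∑ m ∈ Icc 1 ((N - 1) / q), wt l N q m * mult c m| ≤ 4 * (((N - 1) / q : ℕ) : ℝ) ^ σ) :
    Dg (gf (mult c) l) N θ ≤ 8 * (1 + Real.log (N + 1)) ^ 4 * (N : ℝ) ^ (σ + θ * (1 - σ)) := by
  have hN0 : (1 : ℝ) ≤ N := by exact_mod_cast hN
  have hNp : (0 : ℝ) < N := by linarith
  have hL0 : 0 ≤ Real.log (N + 1) := Real.log_nonneg (by linarith)
  have hLN : Real.log N ≤ Real.log (N + 1) := Real.log_le_log hNp (by linarith)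
  have hLN0 : 0 ≤ Real.log N := Real.log_natCast_nonneg N
  set L : ℝ := Real.log (N + 1) with hL
  -- the sums
  have hS : ∀ q : ℕ, 1 ≤ q → (q : ℝ) ≤ (N : ℝ) ^ θ →
      |∑ n ∈ (Ico 1 N).filter (fun n => n ≡ N [MOD q]),
        ArithmeticFunction.vonMangoldt n * gf (mult c) l (N - n)| ≤
      4 * L ^ 2 * ((N : ℝ) ^ σ * (1 / (q : ℝ)) ^ σ) := by
    intro q hq hqN
    have h1 := diag_wt c hc l N q hN hq
    have h2 := H q hq hqN
    have hq0 : (0 : ℝ) < q := by exact_mod_cast hq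
    have h3 : (((N - 1) / q : ℕ) : ℝ) ≤ N * (1 / (q : ℝ)) := by
      refine (Nat.cast_div_le).trans ?_
      rw [mul_one_div]
      refine div_le_div_of_nonneg_right ?_ hq0.le
      exact_mod_cast Nat.sub_le N 1
    refine h1.trans ?_
    calc L ^ 2 * |∑ m ∈ Icc 1 ((N - 1) / q), wt l N q m * mult c m| ≤
          L ^ 2 * (4 * (N * (1 / (q : ℝ))) ^ σ) := by
          refine mul_le_mul_of_nonneg_left (h2.trans ?_) (by positivity)
          exact mul_le_mul_of_nonneg_left (Real.rpow_le_rpow (by positivity) h3 hσ0) (by norm_num)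
      _ = _ := by
          rw [Real.mul_rpow hNp.le (by positivity)]
          ring
  have hS1 : |∑ n ∈ Ico 1 N, ArithmeticFunction.vonMangoldt n * gf (mult c) l (N - n)| ≤
      4 * L ^ 2 * (N : ℝ) ^ σ := by
    have h1 := hS 1 le_rfl (by
      rw [Nat.cast_one]
      exact Real.one_le_rpow hN0 hθ0)
    have h2 : (Ico 1 N).filter (fun n => n ≡ N [MOD 1]) = Ico 1 N :=
      filter_true_of_mem fun n _ => Nat.modEq_one
    rw [h2] at h1
    simpa using h1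
  set Q : ℕ := ⌊(N : ℝ) ^ θ⌋₊ with hQ
  have hsub : (Icc 1 N).filter (fun q : ℕ => (q : ℝ) ≤ (N : ℝ) ^ θ ∧ Nat.Coprime q N) ⊆ Icc 1 Q := by
    intro q hq
    rw [mem_filter, mem_Icc] at hq
    rw [mem_Icc]
    exact ⟨hq.1.1, Nat.le_floor hq.2.1⟩
  have hQN : (Q : ℝ) ≤ (N : ℝ) ^ θ := Nat.floor_le (by positivity)
  have hNθ : (N : ℝ) ^ θ ≤ N := by
    calc (N : ℝ) ^ θ ≤ (N : ℝ) ^ (1 : ℝ) := Real.rpow_le_rpow_of_exponent_le hN0 hθ
      _ = N := Real.rpow_one _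
  have hlQ : Real.log Q ≤ L := by
    rcases Nat.eq_zero_or_pos Q with h | h
    · rw [h, Nat.cast_zero, Real.log_zero]
      exact hL0
    · refine (Real.log_le_log (by exact_mod_cast h) (hQN.trans hNθ)).trans hLN
  have h1 : Dg (gf (mult c) l) N θ ≤ ∑ q ∈ Icc 1 Q, (4 * L ^ 2 * ((N : ℝ) ^ σ * (1 / (q : ℝ)) ^ σ) +
      1 / (Nat.totient q : ℝ) * (4 * L ^ 2 * (N : ℝ) ^ σ)) := by
    unfold Dg
    refine (sum_le_sum_of_subset_of_nonneg hsub fun _ _ _ => abs_nonneg _).trans ?_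
    refine sum_le_sum fun q hq => ?_
    rw [mem_Icc] at hq
    have hqN : (q : ℝ) ≤ (N : ℝ) ^ θ := (by exact_mod_cast hq.2 : (q : ℝ) ≤ Q).trans hQN
    refine (abs_sub _ _).trans (add_le_add (hS q hq.1 hqN) ?_)
    rw [abs_mul, abs_of_nonneg (by positivity : (0 : ℝ) ≤ 1 / (Nat.totient q : ℝ))]
    exact mul_le_mul_of_nonneg_left hS1 (by positivity)
  rw [sum_add_distrib, ← mul_sum, ← mul_sum, ← sum_mul] at h1
  refine h1.trans ?_
  have h2 := sum_pow_le Q σ hσ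
  have h3 : (Q : ℝ) ^ (1 - σ) ≤ (N : ℝ) ^ (θ * (1 - σ)) := by
    rw [Real.rpow_mul hNp.le]
    exact Real.rpow_le_rpow (by positivity) hQN (by linarith)
  have h4 : ∑ q ∈ Icc 1 Q, (1 / (q : ℝ)) ^ σ ≤ (N : ℝ) ^ (θ * (1 - σ)) * (1 + L) :=
    h2.trans (mul_le_mul h3 (by linarith) (by
      have : 0 ≤ Real.log Q := Real.log_natCast_nonneg Q
      linarith) (by positivity))
  have h5 : ∑ q ∈ Icc 1 Q, 1 / (Nat.totient q : ℝ) ≤ (1 + L) ^ 2 := by
    refine (sum_inv_tot Q).trans (pow_le_pow_left₀ ?_ (by linarith) 2)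
    have : 0 ≤ Real.log Q := Real.log_natCast_nonneg Q
    linarith
  have h6 : (N : ℝ) ^ (σ + θ * (1 - σ)) = (N : ℝ) ^ σ * (N : ℝ) ^ (θ * (1 - σ)) :=
    Real.rpow_add hNp _ _
  have h7 : (1 : ℝ) ≤ (N : ℝ) ^ (θ * (1 - σ)) :=
    Real.one_le_rpow hN0 (mul_nonneg hθ0 (by linarith))
  have hNσ : 0 < (N : ℝ) ^ σ := by positivity
  set Z : ℝ := (N : ℝ) ^ (θ * (1 - σ)) with hZ
  have h8 : 4 * L ^ 2 * ((N : ℝ) ^ σ * ∑ q ∈ Icc 1 Q, (1 / (q : ℝ)) ^ σ) ≤
      4 * (1 + L) ^ 4 * ((N : ℝ) ^ σ * Z) := by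
    have h9 : (N : ℝ) ^ σ * ∑ q ∈ Icc 1 Q, (1 / (q : ℝ)) ^ σ ≤ (N : ℝ) ^ σ * (Z * (1 + L)) :=
      mul_le_mul_of_nonneg_left h4 hNσ.le
    have h10 : L ^ 2 * (1 + L) ≤ (1 + L) ^ 4 := by
      have h11 : L ^ 2 ≤ (1 + L) ^ 2 := pow_le_pow_left₀ hL0 (by linarith) 2
      have h12 : (1 + L) ≤ (1 + L) ^ 2 := by nlinarith
      calc L ^ 2 * (1 + L) ≤ (1 + L) ^ 2 * (1 + L) ^ 2 :=
            mul_le_mul h11 h12 (by linarith) (by positivity)
        _ = (1 + L) ^ 4 := by ring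
    calc 4 * L ^ 2 * ((N : ℝ) ^ σ * ∑ q ∈ Icc 1 Q, (1 / (q : ℝ)) ^ σ) ≤
          4 * L ^ 2 * ((N : ℝ) ^ σ * (Z * (1 + L))) := mul_le_mul_of_nonneg_left h9 (by positivity)
      _ = 4 * (L ^ 2 * (1 + L)) * ((N : ℝ) ^ σ * Z) := by ring
      _ ≤ 4 * (1 + L) ^ 4 * ((N : ℝ) ^ σ * Z) :=
          mul_le_mul_of_nonneg_right (by linarith) (by positivity)
  have h9 : (∑ q ∈ Icc 1 Q, 1 / (Nat.totient q : ℝ)) * (4 * L ^ 2 * (N : ℝ) ^ σ) ≤
      4 * (1 + L) ^ 4 * ((N : ℝ) ^ σ * Z) := by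
    have h11 : L ^ 2 ≤ (1 + L) ^ 2 := pow_le_pow_left₀ hL0 (by linarith) 2
    calc _ ≤ (1 + L) ^ 2 * (4 * L ^ 2 * (N : ℝ) ^ σ) :=
          mul_le_mul_of_nonneg_right h5 (by positivity)
      _ ≤ (1 + L) ^ 2 * (4 * (1 + L) ^ 2 * ((N : ℝ) ^ σ * Z)) := by
          refine mul_le_mul_of_nonneg_left ?_ (by positivity)
          refine mul_le_mul (by linarith) ?_ hNσ.le (by positivity)
          exact le_mul_of_one_le_right hNσ.le h7
      _ = _ := by ring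
  rw [h6]
  linarith

end Pool.Agent.Q163.HC
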