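import Pool.Agent.Q163.HC.EH

/-! Twisted sums over primes in progressions: the final estimates. -/

set_option autoImplicit false

namespace Pool.Agent.Q163.HC

open Finset Filter Topology MeasureTheory Pool.Agent.Q163.RP Pool.Agent.Q163.RX
  Pool.Agent.Q163.GC Pool.Agent.Q163.WM Pool.Agent.Q163.EX

/-- the diagonal sums for all levels below one -/
theorem diag_final (c : ℕ → ℝ) (hc : ∀ p, |c p| = 1) (σ : ℝ) (hσ0 : 0 ≤ σ) (hσ : σ ≤ 1)
    (H : ∀ A : ℕ, ∀ᶠ R : ℕ in atTop, ∀ N q : ℕ, 1 ≤ N → N ≤ R ^ A → 1 ≤ q → q ≤ R ^ A → ∀ l,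
      |∑ m ∈ Icc 1 R, wt l N q m * mult c m| ≤ 4 * (R : ℝ) ^ σ) (θ : ℝ) (hθ0 : 0 ≤ θ) (hθ : θ < 1) :
    ∀ᶠ N : ℕ in atTop, ∀ l,
      Dg (gf (mult c) l) N θ ≤ 8 * (1 + Real.log (N + 1)) ^ 4 * (N : ℝ) ^ (σ + θ * (1 - σ)) := by
  obtain ⟨A, hA⟩ := exists_nat_ge (2 / (1 - θ))
  have hθ' : 0 < 1 - θ := by linarith
  have hA1 : 2 ≤ (1 - θ) * A := by
    rw [div_le_iff₀ hθ'] at hA
    linarith
  obtain ⟨R0, hR0⟩ := eventually_atTop.1 (H A)
  have h1 : ∀ᶠ N : ℕ in atTop, max 4 (2 * ((R0 : ℝ) + 1)) ≤ (N : ℝ) ^ (1 - θ) :=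
    ((tendsto_rpow_atTop hθ').comp tendsto_natCast_atTop_atTop).eventually_ge_atTop _
  filter_upwards [h1, eventually_ge_atTop (2 ^ A), eventually_ge_atTop 1] with N hN1 hN2 hN l
  have hN0 : (1 : ℝ) ≤ N := by exact_mod_cast hN
  have hNp : (0 : ℝ) < N := by linarith
  refine Dg_le c hc l N hN θ σ hθ0 hθ.le hσ0 hσ fun q hq hqN => ?_
  have hq0 : (0 : ℝ) < q := by exact_mod_cast hq
  have hNθ : (0 : ℝ) < (N : ℝ) ^ θ := by positivity
  have h4 : (4 : ℝ) ≤ (N : ℝ) ^ (1 - θ) := (le_max_left _ _).trans hN1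
  have hR : 2 * ((R0 : ℝ) + 1) ≤ (N : ℝ) ^ (1 - θ) := (le_max_right _ _).trans hN1
  have hM : (N : ℝ) ^ (1 - θ) / 2 ≤ (((N - 1) / q : ℕ) : ℝ) := by
    have h2 : ((N - 1 : ℕ) : ℝ) / q - 1 < (((N - 1) / q : ℕ) : ℝ) := by
      have h3 := Nat.lt_floor_add_one (((N - 1 : ℕ) : ℝ) / q)
      rw [Nat.floor_div_eq_div] at h3
      linarith
    have h3 : (N : ℝ) ^ (1 - θ) - 1 ≤ ((N - 1 : ℕ) : ℝ) / q := by
      rw [le_div_iff₀ hq0, Nat.cast_sub hN, Nat.cast_one]
      have h5 : (N : ℝ) ^ (1 - θ) * (N : ℝ) ^ θ = N := by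
        rw [← Real.rpow_add hNp]
        norm_num
      have h6 : ((N : ℝ) ^ (1 - θ) - 1) * q ≤ ((N : ℝ) ^ (1 - θ) - 1) * (N : ℝ) ^ θ :=
        mul_le_mul_of_nonneg_left hqN (by linarith)
      have h7 : (1 : ℝ) ≤ (N : ℝ) ^ θ := Real.one_le_rpow hN0 hθ0
      linarith
    linarith
  have hMR : R0 ≤ (N - 1) / q := by
    have : (R0 : ℝ) ≤ (((N - 1) / q : ℕ) : ℝ) := by linarith
    exact_mod_cast this
  have hMA : (N : ℝ) ≤ ((((N - 1) / q) ^ A : ℕ) : ℝ) := by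
    push_cast
    have h2 : ((N : ℝ) ^ (1 - θ) / 2) ^ A ≤ ((((N - 1) / q : ℕ)) : ℝ) ^ A :=
      pow_le_pow_left₀ (by positivity) hM A
    refine le_trans ?_ h2
    rw [div_pow, le_div_iff₀ (by positivity), ← Real.rpow_natCast ((N : ℝ) ^ (1 - θ)),
      ← Real.rpow_mul hNp.le]
    have h3 : (2 : ℝ) ^ A ≤ N := by exact_mod_cast hN2
    calc (N : ℝ) * 2 ^ A ≤ N * N := mul_le_mul_of_nonneg_left h3 hNp.le
      _ = (N : ℝ) ^ (2 : ℝ) := by
          rw [Real.rpow_two]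
          ring
      _ ≤ (N : ℝ) ^ ((1 - θ) * A) := Real.rpow_le_rpow_of_exponent_le hN0 hA1
  have hMA' : N ≤ ((N - 1) / q) ^ A := by exact_mod_cast hMA
  have hqN' : q ≤ N := by
    have : (q : ℝ) ≤ N := hqN.trans (by
      calc (N : ℝ) ^ θ ≤ (N : ℝ) ^ (1 : ℝ) := Real.rpow_le_rpow_of_exponent_le hN0 hθ.le
        _ = N := Real.rpow_one _)
    exact_mod_cast this
  exact hR0 _ hMR N q hN hMA' hq (hqN'.trans hMA') l

/-- elements of a class up to `N` -/
lemma card_class (N q a : ℕ) (hq : 1 ≤ q) :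
    (((Icc 1 N).filter (fun n => n ≡ a [MOD q])).card : ℝ) ≤ N / q + 1 := by
  obtain ⟨a1, h1, h2, h3⟩ := sum_class (fun _ => 1) N a q hq
  rw [sum_const, sum_const, nsmul_eq_mul, nsmul_eq_mul, mul_one, mul_one, Nat.card_Icc,
    Nat.add_sub_cancel] at h3
  have h4 : (Icc 1 N).filter (fun n => n ≡ a [MOD q]) = (Icc 1 N).filter (fun t => t % q = a % q) := rfl
  rw [h4, h3]
  refine Nat.cast_div_le.trans ?_
  have hq0 : (0 : ℝ) < q := by exact_mod_cast hq
  rw [div_add_one hq0.ne']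
  refine div_le_div_of_nonneg_right ?_ hq0.le
  exact_mod_cast Nat.sub_le _ _

/-- the sums over primes in all classes -/
theorem full_ae : ∀ᵐ ω ∂cm, ∀ ε : ℝ, 0 < ε → ∀ᶠ N : ℕ in atTop, ∀ (l : Bool) (q a y : ℕ), 1 ≤ q →
    q ≤ N → y ≤ N →
      |∑ n ∈ (Ico 1 y).filter (fun n => n ≡ a [MOD q]),
        ArithmeticFunction.vonMangoldt n * gf (ch ω) l (N - n)| ≤
        ((N : ℝ) / q) ^ (1 / 2 : ℝ) * (N : ℝ) ^ ε := by
  classical
  have h1 : ∀ᵐ ω ∂cm, ∀ j : ℕ, ∀ᶠ R : ℕ in atTop, ∀ t ∈ (univ : Finset Bool) ×ˢ Icc 1 R ×ˢ range R ×ˢ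
      Icc 1 R, |∑ n ∈ (Ico 1 t.2.2.2).filter (fun n => n ≡ t.2.2.1 [MOD t.2.1] ∧ Squarefree (R - n)),
        ArithmeticFunction.vonMangoldt n * ((ArithmeticFunction.moebius (R - n) : ℤ) : ℝ) *
          lg t.1 (R - n) * ch ω (R - n)| ≤
      (R : ℝ) ^ (1 / ((j : ℝ) + 1) / 2) *
        Real.sqrt ((1 : ℕ) * (((R : ℝ) / t.2.1 + 1) * (1 + Real.log (R + 1)) ^ 4)) := by
    rw [ae_all_iff]
    intro j
    refine ae_main (τ := Bool × ℕ × ℕ × ℕ) (ι := ℕ)
      (fun R => (univ : Finset Bool) ×ˢ Icc 1 R ×ˢ range R ×ˢ Icc 1 R) 3 2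
      (fun R hR => by
        rw [card_product, card_product, card_product, card_univ, Fintype.card_bool, Nat.card_Icc,
          card_range, Nat.add_sub_cancel]
        push_cast
        refine le_of_eq ?_
        ring)
      (fun R t => (Ico 1 t.2.2.2).filter (fun n => n ≡ t.2.2.1 [MOD t.2.1] ∧ Squarefree (R - n)))
      (fun R t n => ArithmeticFunction.vonMangoldt n *
        ((ArithmeticFunction.moebius (R - n) : ℤ) : ℝ) * lg t.1 (R - n))
      (fun R _ n => R - n) 1 1 le_rfl (fun R hR t ht n hn => ?_)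
      (fun R t => (1 : ℕ) * (((R : ℝ) / t.2.1 + 1) * (1 + Real.log (R + 1)) ^ 4))
      (fun R hR t ht => ?_) (fun R hR t ht => ⟨1, fun U => ?_, ?_⟩) _ (by positivity)
    · rw [mem_product, mem_product, mem_product, mem_Icc, mem_Icc] at ht
      rw [mem_filter, mem_Ico] at hn
      have h2 : 1 ≤ R - n := by omega
      refine ⟨h2, ?_⟩
      rw [one_mul, pow_one]
      exact_mod_cast Nat.sub_le R n
    · have h2 : 0 ≤ Real.log ((R : ℝ) + 1) := Real.log_nonneg (by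
        have : (0 : ℝ) ≤ R := Nat.cast_nonneg R
        linarith)
      have h3 : (0 : ℝ) ≤ (R : ℝ) / t.2.1 := by positivity
      push_cast
      positivity
    · rw [card_le_one]
      intro x hx y hy
      rw [mem_filter, mem_filter, mem_Ico] at hx hy
      rw [mem_product, mem_product, mem_product, mem_Icc, mem_Icc] at ht
      have hod : ∀ z : ℕ, Squarefree z → z = ∏ p ∈ od z, p := by
        intro z hz
        have h2 : od z = z.primeFactors := by
          unfold od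
          refine filter_true_of_mem fun p hp => ?_
          have h3 := Nat.factorization_eq_one_of_squarefree hz (Nat.prime_of_mem_primeFactors hp)
            (Nat.dvd_of_mem_primeFactors hp)
          rw [h3]
          exact odd_one
        rw [h2, Nat.prod_primeFactors_of_squarefree hz]
      have h2 := hod _ hx.1.2.2
      have h3 := hod _ hy.1.2.2
      rw [hx.2] at h2
      rw [hy.2] at h3
      omega
    · have hLR : 0 ≤ Real.log ((R : ℝ) + 1) := Real.log_nonneg (by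
        have : (0 : ℝ) ≤ R := Nat.cast_nonneg R
        linarith)
      rw [mem_product, mem_product, mem_product, mem_Icc, mem_Icc] at ht
      refine mul_le_mul_of_nonneg_left ?_ (by positivity)
      have h2 : ∀ n ∈ (Ico 1 t.2.2.2).filter
          (fun n => n ≡ t.2.2.1 [MOD t.2.1] ∧ Squarefree (R - n)),
          (ArithmeticFunction.vonMangoldt n * ((ArithmeticFunction.moebius (R - n) : ℤ) : ℝ) *
            lg t.1 (R - n)) ^ 2 ≤ (1 + Real.log (R + 1)) ^ 4 := by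
        intro n hn
        rw [mem_filter, mem_Ico] at hn
        have hlog : ∀ k : ℕ, 1 ≤ k → k ≤ R → Real.log k ≤ 1 + Real.log (R + 1) := by
          intro k hk hkR
          have h3 : Real.log k ≤ Real.log (R + 1) := Real.log_le_log (by exact_mod_cast hk) (by
            have : (k : ℝ) ≤ R := by exact_mod_cast hkR
            linarith)
          linarith
        have h3 : |ArithmeticFunction.vonMangoldt n| ≤ 1 + Real.log (R + 1) := by
          rw [abs_of_nonneg ArithmeticFunction.vonMangoldt_nonneg]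
          exact ArithmeticFunction.vonMangoldt_le_log.trans (hlog n (by omega) (by omega))
        have h4 : |lg t.1 (R - n)| ≤ 1 + Real.log (R + 1) := by
          unfold lg
          split_ifs
          · rw [abs_of_nonneg (Real.log_natCast_nonneg _)]
            exact hlog _ (by omega) (by omega)
          · rw [abs_one]
            linarith
        have h5 : |((ArithmeticFunction.moebius (R - n) : ℤ) : ℝ)| ≤ 1 := by
          exact_mod_cast ArithmeticFunction.abs_moebius_le_one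
        have h6 : |ArithmeticFunction.vonMangoldt n * ((ArithmeticFunction.moebius (R - n) : ℤ) : ℝ) *
            lg t.1 (R - n)| ≤ (1 + Real.log (R + 1)) ^ 2 := by
          rw [abs_mul, abs_mul]
          calc _ ≤ ((1 + Real.log (R + 1)) * 1) * (1 + Real.log (R + 1)) :=
                mul_le_mul (mul_le_mul h3 h5 (abs_nonneg _) (by linarith)) h4 (abs_nonneg _)
                  (by linarith)
            _ = _ := by ring
        rw [← sq_abs]
        calc _ ≤ ((1 + Real.log (R + 1)) ^ 2) ^ 2 := pow_le_pow_left₀ (abs_nonneg _) h6 2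
          _ = _ := by ring
      refine (sum_le_card_nsmul _ _ _ h2).trans ?_
      rw [nsmul_eq_mul]
      refine mul_le_mul_of_nonneg_right ?_ (by positivity)
      refine le_trans ?_ (card_class R t.2.1 t.2.2.1 ht.2.1.1)
      have h3 : (Ico 1 t.2.2.2).filter (fun n => n ≡ t.2.2.1 [MOD t.2.1] ∧ Squarefree (R - n)) ⊆
          (Icc 1 R).filter (fun n => n ≡ t.2.2.1 [MOD t.2.1]) := by
        intro n hn
        rw [mem_filter, mem_Ico] at hn
        rw [mem_filter, mem_Icc]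
        exact ⟨⟨hn.1.1, by omega⟩, hn.2.1⟩
      exact_mod_cast card_le_card h3
  filter_upwards [h1] with ω hω ε hε
  obtain ⟨j, hj⟩ := exists_nat_one_div_lt hε
  filter_upwards [hω j, polylog 2 (ε / 2) (by positivity), eventually_ge_atTop 1] with N hN1 hN2 hN
  intro l q a y hq hqN hy
  have hN0 : (1 : ℝ) ≤ N := by exact_mod_cast hN
  have hNp : (0 : ℝ) < N := by linarith
  have hq0 : (0 : ℝ) < q := by exact_mod_cast hq
  have hqN' : (q : ℝ) ≤ N := by exact_mod_cast hqN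
  rcases Nat.eq_zero_or_pos y with hy0 | hy0
  · rw [hy0]
    simp only [Ico_eq_empty_of_le (Nat.zero_le 1), filter_empty, sum_empty, abs_zero]
    positivity
  have h2 := hN1 (l, q, a % q, y) (by
    rw [mem_product, mem_product, mem_product, mem_Icc, mem_Icc, mem_range]
    refine ⟨mem_univ _, ⟨hq, hqN⟩, ?_, hy0, hy⟩
    exact lt_of_lt_of_le (Nat.mod_lt a (by omega)) hqN)
  simp only at h2
  have h3 : ∑ n ∈ (Ico 1 y).filter (fun n => n ≡ a [MOD q]),
      ArithmeticFunction.vonMangoldt n * gf (ch ω) l (N - n) =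
      ∑ n ∈ (Ico 1 y).filter (fun n => n ≡ a % q [MOD q] ∧ Squarefree (N - n)),
        ArithmeticFunction.vonMangoldt n * ((ArithmeticFunction.moebius (N - n) : ℤ) : ℝ) *
          lg l (N - n) * ch ω (N - n) := by
    have h4 : (Ico 1 y).filter (fun n => n ≡ a % q [MOD q] ∧ Squarefree (N - n)) =
        ((Ico 1 y).filter (fun n => n ≡ a [MOD q])).filter (fun n => Squarefree (N - n)) := by
      rw [filter_filter]
      refine filter_congr fun n _ => ?_
      rw [Nat.ModEq, Nat.ModEq, Nat.mod_mod]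
    rw [h4, sum_filter (s := (Ico 1 y).filter (fun n => n ≡ a [MOD q]))]
    refine sum_congr rfl fun n _ => ?_
    unfold gf
    split_ifs with h5
    · ring
    · rw [ArithmeticFunction.moebius_eq_zero_of_not_squarefree h5]
      simp
  rw [h3]
  refine h2.trans ?_
  have hL0 : 0 ≤ Real.log ((N : ℝ) + 1) := Real.log_nonneg (by linarith)
  have h5 : (N : ℝ) / q + 1 ≤ 2 * ((N : ℝ) / q) := by
    have : 1 ≤ (N : ℝ) / q := by rwa [one_le_div hq0]
    linarith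
  have h6 : Real.sqrt ((1 : ℕ) * (((N : ℝ) / q + 1) * (1 + Real.log (N + 1)) ^ 4)) ≤
      ((N : ℝ) / q) ^ (1 / 2 : ℝ) * (N : ℝ) ^ (ε / 4) := by
    rw [← Real.sqrt_sq (show 0 ≤ ((N : ℝ) / q) ^ (1 / 2 : ℝ) * (N : ℝ) ^ (ε / 4) by positivity)]
    refine Real.sqrt_le_sqrt ?_
    have h7 : (((N : ℝ) / q) ^ (1 / 2 : ℝ)) ^ 2 = (N : ℝ) / q := by
      rw [← Real.rpow_natCast, ← Real.rpow_mul (by positivity)]
      norm_num
    have h8 : ((N : ℝ) ^ (ε / 4)) ^ 2 = (N : ℝ) ^ (ε / 2) := by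
      rw [← Real.rpow_natCast, ← Real.rpow_mul (by positivity)]
      congr 1
      push_cast
      ring
    rw [mul_pow, h7, h8, Nat.cast_one, one_mul]
    calc ((N : ℝ) / q + 1) * (1 + Real.log (N + 1)) ^ 4 ≤
          2 * ((N : ℝ) / q) * (1 + Real.log (N + 1)) ^ 4 :=
          mul_le_mul_of_nonneg_right h5 (by positivity)
      _ = ((N : ℝ) / q) * (2 * (1 + Real.log (N + 1)) ^ 4) := by ring
      _ ≤ _ := mul_le_mul_of_nonneg_left hN2 (by positivity)
  have h7 : (N : ℝ) ^ (1 / ((j : ℝ) + 1) / 2) ≤ (N : ℝ) ^ (ε / 2) :=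
    Real.rpow_le_rpow_of_exponent_le hN0 (by linarith)
  calc _ ≤ (N : ℝ) ^ (ε / 2) * (((N : ℝ) / q) ^ (1 / 2 : ℝ) * (N : ℝ) ^ (ε / 4)) :=
        mul_le_mul h7 h6 (Real.sqrt_nonneg _) (by positivity)
    _ = ((N : ℝ) / q) ^ (1 / 2 : ℝ) * (N : ℝ) ^ (ε / 2 + ε / 4) := by
        rw [Real.rpow_add hNp]
        ring
    _ ≤ _ := by
        refine mul_le_mul_of_nonneg_left ?_ (by positivity)
        exact Real.rpow_le_rpow_of_exponent_le hN0 (by linarith)

/-- the discrepancies with arbitrary classes and endpoints, summed over the moduli -/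
noncomputable def Df (g : ℕ → ℝ) (N : ℕ) (θ : ℝ) (a y : ℕ → ℕ) : ℝ :=
  ∑ q ∈ (Icc 1 N).filter (fun q : ℕ => (q : ℝ) ≤ (N : ℝ) ^ θ),
    |∑ n ∈ (Ico 1 (y q)).filter (fun n => n ≡ a q [MOD q]),
        ArithmeticFunction.vonMangoldt n * g (N - n) -
      1 / (Nat.totient q : ℝ) * ∑ n ∈ Ico 1 (y q), ArithmeticFunction.vonMangoldt n * g (N - n)|

theorem Df_le (g : ℕ → ℝ) (N : ℕ) (hN : 1 ≤ N) (θ : ℝ) (hθ0 : 0 ≤ θ) (hθ : θ ≤ 1) (E : ℝ)
    (H : ∀ q a y : ℕ, 1 ≤ q → q ≤ N → y ≤ N → |∑ n ∈ (Ico 1 y).filter (fun n => n ≡ a [MOD q]),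
        ArithmeticFunction.vonMangoldt n * g (N - n)| ≤ ((N : ℝ) / q) ^ (1 / 2 : ℝ) * E)
    (a y : ℕ → ℕ) (hy : ∀ q, y q ≤ N) :
    Df g N θ a y ≤ 2 * (1 + Real.log (N + 1)) ^ 4 * (N : ℝ) ^ ((1 + θ) / 2) * E := by
  have hN0 : (1 : ℝ) ≤ N := by exact_mod_cast hN
  have hNp : (0 : ℝ) < N := by linarith
  have hE : 0 ≤ E := by
    have h1 := (abs_nonneg _).trans (H 1 0 0 le_rfl hN (Nat.zero_le _))
    rw [Nat.cast_one, div_one] at h1
    exact nonneg_of_mul_nonneg_right h1 (by positivity)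
  have hL0 : 0 ≤ Real.log (N + 1) := Real.log_nonneg (by linarith)
  have hLN : Real.log N ≤ Real.log (N + 1) := Real.log_le_log hNp (by linarith)
  set L : ℝ := Real.log (N + 1) with hL
  set Q : ℕ := ⌊(N : ℝ) ^ θ⌋₊ with hQ
  have hQN : (Q : ℝ) ≤ (N : ℝ) ^ θ := Nat.floor_le (by positivity)
  have hNθ : (N : ℝ) ^ θ ≤ N := by
    calc (N : ℝ) ^ θ ≤ (N : ℝ) ^ (1 : ℝ) := Real.rpow_le_rpow_of_exponent_le hN0 hθ
      _ = N := Real.rpow_one _
  have hQN' : Q ≤ N := by exact_mod_cast hQN.trans hNθ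
  have hlQ0 : 0 ≤ Real.log Q := Real.log_natCast_nonneg Q
  have hlQ : Real.log Q ≤ L := by
    rcases Nat.eq_zero_or_pos Q with h | h
    · rw [h, Nat.cast_zero, Real.log_zero]
      exact hL0
    · exact (Real.log_le_log (by exact_mod_cast h) (hQN.trans hNθ)).trans hLN
  have hsub : (Icc 1 N).filter (fun q : ℕ => (q : ℝ) ≤ (N : ℝ) ^ θ) ⊆ Icc 1 Q := by
    intro q hq
    rw [mem_filter, mem_Icc] at hq
    rw [mem_Icc]
    exact ⟨hq.1.1, Nat.le_floor hq.2⟩
  have h1 : Df g N θ a y ≤ ∑ q ∈ Icc 1 Q, ((N : ℝ) ^ (1 / 2 : ℝ) * E * (1 / (q : ℝ)) ^ (1 / 2 : ℝ) +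
      1 / (Nat.totient q : ℝ) * ((N : ℝ) ^ (1 / 2 : ℝ) * E)) := by
    unfold Df
    refine (sum_le_sum_of_subset_of_nonneg hsub fun _ _ _ => abs_nonneg _).trans ?_
    refine sum_le_sum fun q hq => ?_
    rw [mem_Icc] at hq
    refine (abs_sub _ _).trans (add_le_add ?_ ?_)
    · refine (H q (a q) (y q) hq.1 (hq.2.trans hQN') (hy q)).trans (le_of_eq ?_)
      rw [div_eq_mul_one_div, Real.mul_rpow hNp.le (by positivity)]
      ring
    · rw [abs_mul, abs_of_nonneg (by positivity : (0 : ℝ) ≤ 1 / (Nat.totient q : ℝ))]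
      refine mul_le_mul_of_nonneg_left ?_ (by positivity)
      have h2 := H 1 0 (y q) le_rfl hN (hy q)
      have h3 : (Ico 1 (y q)).filter (fun n => n ≡ 0 [MOD 1]) = Ico 1 (y q) :=
        filter_true_of_mem fun n _ => Nat.modEq_one
      rwa [h3, Nat.cast_one, div_one] at h2
  rw [sum_add_distrib, ← mul_sum, ← sum_mul] at h1
  have h2 := sum_pow_le Q (1 / 2) (by norm_num)
  have h3 : (Q : ℝ) ^ (1 - 1 / 2 : ℝ) ≤ (N : ℝ) ^ (θ / 2) := by
    have : θ / 2 = θ * (1 - 1 / 2) := by ring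
    rw [this, Real.rpow_mul hNp.le]
    exact Real.rpow_le_rpow (by positivity) hQN (by norm_num)
  have h4 : ∑ q ∈ Icc 1 Q, (1 / (q : ℝ)) ^ (1 / 2 : ℝ) ≤ (N : ℝ) ^ (θ / 2) * (1 + L) ^ 4 := by
    refine h2.trans (mul_le_mul h3 ?_ (by linarith) (by positivity))
    have h5 : (1 + L) ^ 1 ≤ (1 + L) ^ 4 := pow_le_pow_right₀ (by linarith) (by norm_num)
    rw [pow_one] at h5
    linarith
  have h5 : ∑ q ∈ Icc 1 Q, 1 / (Nat.totient q : ℝ) ≤ (N : ℝ) ^ (θ / 2) * (1 + L) ^ 4 := by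
    have h6 : (1 + Real.log Q) ^ 2 ≤ (1 + L) ^ 2 := pow_le_pow_left₀ (by linarith) (by linarith) 2
    have h7 : (1 + L) ^ 2 ≤ (1 + L) ^ 4 := pow_le_pow_right₀ (by linarith) (by norm_num)
    have h8 : (1 : ℝ) ≤ (N : ℝ) ^ (θ / 2) := Real.one_le_rpow hN0 (by linarith)
    calc _ ≤ (1 + L) ^ 4 := ((sum_inv_tot Q).trans h6).trans h7
      _ ≤ _ := le_mul_of_one_le_left (by positivity) h8
  have h6 : (N : ℝ) ^ ((1 + θ) / 2) = (N : ℝ) ^ (1 / 2 : ℝ) * (N : ℝ) ^ (θ / 2) := by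
    rw [← Real.rpow_add hNp]
    congr 1
    ring
  rw [h6]
  have hX : 0 ≤ (N : ℝ) ^ (1 / 2 : ℝ) * E := by positivity
  have h7 := mul_le_mul_of_nonneg_left h4 hX
  have h8 := mul_le_mul_of_nonneg_right h5 hX
  refine h1.trans ((add_le_add h7 h8).trans (le_of_eq ?_))
  ring

end Pool.Agent.Q163.HC
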