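import Mathlib

/-! Squarefree binary forms and their rows. -/

set_option autoImplicit false

namespace Pool.Agent.Q163.HC

open Finset

section Field

variable {K : Type*} [Field K] [CharZero K]

/-- homogenization -/
noncomputable def homz (g : Polynomial K) (m : ℕ) : MvPolynomial (Fin 2) K :=
  ∑ i ∈ range (m + 1), MvPolynomial.C (g.coeff i) * MvPolynomial.X 0 ^ i * MvPolynomial.X 1 ^ (m - i)

/-- the row of a polynomial in two variables -/
noncomputable def row {R : Type*} [CommRing R] (F : MvPolynomial (Fin 2) R) (v : R) : Polynomial R :=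
  MvPolynomial.eval₂ Polynomial.C ![Polynomial.X, Polynomial.C v] F

lemma row_eval {R : Type*} [CommRing R] (F : MvPolynomial (Fin 2) R) (u v : R) :
    (row F v).eval u = MvPolynomial.eval ![u, v] F := by
  unfold row
  induction F using MvPolynomial.induction_on with
  | C a => simp
  | add p q hp hq => simp only [MvPolynomial.eval₂_add, Polynomial.eval_add, hp, hq, map_add]
  | mul_X p i hp =>
    rw [MvPolynomial.eval₂_mul, Polynomial.eval_mul, hp, MvPolynomial.eval₂_X, map_mul,
      MvPolynomial.eval_X]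
    congr 1
    fin_cases i <;> simp

lemma homz_eval (g : Polynomial K) (m : ℕ) (hm : g.natDegree ≤ m) (u v : K) (hv : v ≠ 0) :
    MvPolynomial.eval ![u, v] (homz g m) = v ^ m * g.eval (u / v) := by
  unfold homz
  rw [map_sum, Polynomial.eval_eq_sum_range' (show g.natDegree < m + 1 by omega), mul_sum]
  refine sum_congr rfl fun i hi => ?_
  have hi' : i ≤ m := by
    have := mem_range.1 hi
    omega
  simp only [map_mul, MvPolynomial.eval_C, map_pow, MvPolynomial.eval_X, Matrix.cons_val_zero,
    Matrix.cons_val_one, div_pow]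
  have h1 : v ^ m = v ^ (m - i) * v ^ i := by
    rw [← pow_add]
    congr 1
    omega
  rw [h1]
  field_simp

lemma funext_ne (P Q : MvPolynomial (Fin 2) K)
    (h : ∀ u v : K, v ≠ 0 → MvPolynomial.eval ![u, v] P = MvPolynomial.eval ![u, v] Q) : P = Q := by
  have h1 : P * MvPolynomial.X 1 = Q * MvPolynomial.X 1 := by
    refine MvPolynomial.funext fun x => ?_
    have hx : x = ![x 0, x 1] := by
      funext i
      fin_cases i <;> rfl
    rw [map_mul, map_mul, MvPolynomial.eval_X]
    by_cases h2 : x 1 = 0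
    · rw [h2, mul_zero, mul_zero]
    · rw [hx, h (x 0) (x 1) h2]
  exact mul_right_cancel₀ (MvPolynomial.X_ne_zero 1) h1

lemma homz_mul (g h : Polynomial K) (m n : ℕ) (hm : g.natDegree ≤ m) (hn : h.natDegree ≤ n) :
    homz (g * h) (m + n) = homz g m * homz h n := by
  refine funext_ne _ _ fun u v hv => ?_
  rw [map_mul, homz_eval _ _ (Polynomial.natDegree_mul_le.trans (by omega)) _ _ hv,
    homz_eval _ _ hm _ _ hv, homz_eval _ _ hn _ _ hv, Polynomial.eval_mul, pow_add]
  ring

lemma eval_smul_form {R : Type*} [CommRing R] (F : MvPolynomial (Fin 2) R) (d : ℕ)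
    (hF : F.IsHomogeneous d) (t : R) (x : Fin 2 → R) :
    MvPolynomial.eval (fun i => t * x i) F = t ^ d * MvPolynomial.eval x F := by
  rw [MvPolynomial.eval_eq, MvPolynomial.eval_eq, mul_sum]
  refine sum_congr rfl fun m hm => ?_
  have h1 := hF.degree_eq_sum_deg_support hm
  have h2 : ∏ i ∈ m.support, (t * x i) ^ m i = t ^ d * ∏ i ∈ m.support, x i ^ m i := by
    simp_rw [mul_pow]
    rw [prod_mul_distrib, prod_pow_eq_pow_sum, h1]
  rw [h2]
  ring

lemma row_natDegree_le {R : Type*} [CommRing R] [Nontrivial R] (F : MvPolynomial (Fin 2) R) (d : ℕ)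
    (hF : F.IsHomogeneous d) (v : R) : (row F v).natDegree ≤ d := by
  unfold row
  rw [MvPolynomial.eval₂_eq]
  refine Polynomial.natDegree_sum_le_of_forall_le _ _ fun m hm => ?_
  have h1 := hF.degree_eq_sum_deg_support hm
  refine (Polynomial.natDegree_C_mul_le _ _).trans ?_
  have h2 : ∏ i ∈ m.support, (![Polynomial.X, Polynomial.C v] : Fin 2 → Polynomial R) i ^ m i =
      ∏ i : Fin 2, (![Polynomial.X, Polynomial.C v] : Fin 2 → Polynomial R) i ^ m i := by
    refine prod_subset (subset_univ _) fun i _ hi => ?_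
    rw [Finsupp.notMem_support_iff.1 hi, pow_zero]
  have h3 : m 0 ≤ d := by
    rw [h1]
    by_cases h4 : m 0 = 0
    · rw [h4]
      exact Nat.zero_le _
    · exact single_le_sum (f := fun i => m i) (fun _ _ => Nat.zero_le _) (Finsupp.mem_support_iff.2 h4)
  rw [h2, Fin.prod_univ_two]
  simp only [Matrix.cons_val_zero, Matrix.cons_val_one]
  rw [← Polynomial.C_pow]
  refine (Polynomial.natDegree_mul_C_le _ _).trans ?_
  rw [Polynomial.natDegree_X_pow]
  exact h3

lemma row_map {R S : Type*} [CommRing R] [CommRing S] (φ : R →+* S) (F : MvPolynomial (Fin 2) R)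
    (v : R) : (row F v).map φ = row (MvPolynomial.map φ F) (φ v) := by
  unfold row
  induction F using MvPolynomial.induction_on with
  | C a => simp
  | add p q hp hq =>
    rw [MvPolynomial.eval₂_add, Polynomial.map_add, hp, hq, map_add, MvPolynomial.eval₂_add]
  | mul_X p i hp =>
    rw [MvPolynomial.eval₂_mul, Polynomial.map_mul, hp, map_mul, MvPolynomial.eval₂_mul,
      MvPolynomial.map_X, MvPolynomial.eval₂_X, MvPolynomial.eval₂_X]
    congr 1
    fin_cases i <;> simp

lemma homz_row (F : MvPolynomial (Fin 2) K) (d : ℕ) (hF : F.IsHomogeneous d) :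
    homz (row F 1) d = F := by
  refine funext_ne _ _ fun u v hv => ?_
  rw [homz_eval _ _ (row_natDegree_le F d hF 1) _ _ hv, row_eval, ← eval_smul_form F d hF]
  congr 2
  funext i
  fin_cases i
  · simp only [Fin.zero_eta, Matrix.cons_val_zero]
    field_simp
  · simp

lemma homz_eval_zero (g : Polynomial K) (m : ℕ) (hm : 1 ≤ m) :
    MvPolynomial.eval ![0, 0] (homz g m) = 0 := by
  unfold homz
  rw [map_sum]
  refine sum_eq_zero fun i hi => ?_
  simp only [map_mul, MvPolynomial.eval_C, map_pow, MvPolynomial.eval_X, Matrix.cons_val_zero,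
    Matrix.cons_val_one]
  rcases Nat.eq_zero_or_pos i with h | h
  · rw [h, Nat.sub_zero, zero_pow (by omega : m ≠ 0), mul_zero]
  · rw [zero_pow (by omega : i ≠ 0), mul_zero, zero_mul]

lemma not_unit_homz (g : Polynomial K) (m : ℕ) (hm : 1 ≤ m) : ¬ IsUnit (homz g m) := by
  intro h
  have h1 := h.map (MvPolynomial.eval (![0, 0] : Fin 2 → K))
  rw [homz_eval_zero g m hm] at h1
  exact not_isUnit_zero h1

/-- the dehomogenization of a squarefree form -/
theorem row_one (F : MvPolynomial (Fin 2) K) (d : ℕ) (hF : F.IsHomogeneous d) (hs : Squarefree F) :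
    Squarefree (row F 1) ∧ (row F 1).natDegree ≤ d ∧ d ≤ (row F 1).natDegree + 1 := by
  have hF0 : F ≠ 0 := hs.ne_zero
  have hd := row_natDegree_le F d hF 1
  have hh := homz_row F d hF
  have hf0 : row F 1 ≠ 0 := by
    intro h
    rw [h] at hh
    apply hF0
    rw [← hh]
    unfold homz
    simp
  refine ⟨?_, hd, ?_⟩
  · intro g hg
    obtain ⟨h, hgh⟩ := hg
    have hg0 : g ≠ 0 := by
      rintro rfl
      rw [zero_mul, zero_mul] at hgh
      exact hf0 hgh
    have hh0 : h ≠ 0 := by
      rintro rfl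
      rw [mul_zero] at hgh
      exact hf0 hgh
    have hdeg : (row F 1).natDegree = g.natDegree + g.natDegree + h.natDegree := by
      rw [hgh, Polynomial.natDegree_mul (mul_ne_zero hg0 hg0) hh0, Polynomial.natDegree_mul hg0 hg0]
    have h1 : homz (row F 1) d = homz g g.natDegree * homz g g.natDegree *
        homz h (d - (g.natDegree + g.natDegree)) := by
      rw [← homz_mul g g _ _ le_rfl le_rfl, ← homz_mul (g * g) h _ _
        Polynomial.natDegree_mul_le (by omega), ← hgh]
      congr 1
      omega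
    rw [hh] at h1
    have h2 := hs (homz g g.natDegree) ⟨_, h1⟩
    rcases Nat.eq_zero_or_pos g.natDegree with h3 | h3
    · rw [Polynomial.eq_C_of_natDegree_eq_zero h3]
      refine Polynomial.isUnit_C.2 (isUnit_iff_ne_zero.2 fun h4 => hg0 ?_)
      rw [Polynomial.eq_C_of_natDegree_eq_zero h3, h4, Polynomial.C_0]
    · exact absurd h2 (not_unit_homz g _ h3)
  · by_contra hc
    have h1 : homz (row F 1) d = homz 1 1 * homz 1 1 * homz (row F 1) (d - 2) := by
      rw [← homz_mul 1 1 1 1 (by simp) (by simp), ← homz_mul (1 * 1) (row F 1) _ _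
        (by simp) (by omega)]
      rw [one_mul, one_mul]
      congr 1
      omega
    rw [hh] at h1
    exact not_unit_homz 1 1 le_rfl (hs _ ⟨_, h1⟩)

lemma sep_comp (f : Polynomial K) (hf : f.Separable) (a : K) (ha : a ≠ 0) :
    (f.comp (Polynomial.C a * Polynomial.X)).Separable := by
  rw [Polynomial.separable_def] at hf ⊢
  obtain ⟨x, y, hxy⟩ := hf
  refine ⟨x.comp (Polynomial.C a * Polynomial.X),
    Polynomial.C a⁻¹ * y.comp (Polynomial.C a * Polynomial.X), ?_⟩
  have h1 := congrArg (fun p => Polynomial.comp p (Polynomial.C a * Polynomial.X)) hxy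
  simp only [Polynomial.add_comp, Polynomial.mul_comp, Polynomial.one_comp] at h1
  rw [← h1, Polynomial.derivative_comp]
  congr 1
  have h2 : Polynomial.derivative (Polynomial.C a * Polynomial.X) = Polynomial.C a := by
    simp
  have h3 : Polynomial.C a⁻¹ * Polynomial.C a = 1 := by
    rw [← Polynomial.C_mul, inv_mul_cancel₀ ha, Polynomial.C_1]
  rw [h2]
  linear_combination (y.comp (Polynomial.C a * Polynomial.X) *
    (Polynomial.derivative f).comp (Polynomial.C a * Polynomial.X)) * h3

/-- the rows of a squarefree form -/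
theorem row_sep (F : MvPolynomial (Fin 2) K) (d : ℕ) (hF : F.IsHomogeneous d) (hs : Squarefree F)
    (v : K) (hv : v ≠ 0) :
    (row F v).Separable ∧ (row F v).natDegree ≤ d ∧ d ≤ (row F v).natDegree + 1 := by
  obtain ⟨h1, h2, h3⟩ := row_one F d hF hs
  have hK : (row F 1).Separable := PerfectField.separable_iff_squarefree.2 h1
  have h4 : row F v = Polynomial.C (v ^ d) * (row F 1).comp (Polynomial.C v⁻¹ * Polynomial.X) := by
    refine Polynomial.funext fun u => ?_
    rw [row_eval, Polynomial.eval_mul, Polynomial.eval_C, Polynomial.eval_comp, Polynomial.eval_mul,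
      Polynomial.eval_C, Polynomial.eval_X, row_eval, ← eval_smul_form F d hF]
    congr 2
    funext i
    fin_cases i
    · simp only [Fin.zero_eta, Matrix.cons_val_zero]
      field_simp
    · simp
  have hvd : v ^ d ≠ 0 := pow_ne_zero _ hv
  have h5 : (row F v).natDegree = (row F 1).natDegree := by
    rw [h4, Polynomial.natDegree_C_mul hvd, Polynomial.natDegree_comp,
      Polynomial.natDegree_C_mul_X _ (inv_ne_zero hv), mul_one]
  refine ⟨?_, h5 ▸ h2, h5 ▸ h3⟩
  rw [h4]
  exact (sep_comp _ hK _ (inv_ne_zero hv)).unit_mul (Polynomial.isUnit_C.2 (isUnit_iff_ne_zero.2 hvd))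

end Field

lemma row_coeff_le (F : MvPolynomial (Fin 2) ℤ) (d : ℕ) (hF : F.IsHomogeneous d) (H : ℕ)
    (hH : ∀ m, |F.coeff m| ≤ H) (v : ℤ) (V : ℕ) (hV : 1 ≤ V) (hv : |v| ≤ V) (i : ℕ) :
    |(row F v).coeff i| ≤ ((H * V ^ d : ℕ) : ℤ) := by
  classical
  unfold row
  rw [MvPolynomial.eval₂_eq, Polynomial.finsetSum_coeff]
  have h1 : ∀ m ∈ F.support, (Polynomial.C (F.coeff m) *
      ∏ j ∈ m.support, (![Polynomial.X, Polynomial.C v] : Fin 2 → Polynomial ℤ) j ^ m j).coeff i =
      if m 0 = i then F.coeff m * v ^ m 1 else 0 := by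
    intro m _
    have h2 : ∏ j ∈ m.support, (![Polynomial.X, Polynomial.C v] : Fin 2 → Polynomial ℤ) j ^ m j =
        ∏ j : Fin 2, (![Polynomial.X, Polynomial.C v] : Fin 2 → Polynomial ℤ) j ^ m j := by
      refine prod_subset (subset_univ _) fun j _ hj => ?_
      rw [Finsupp.notMem_support_iff.1 hj, pow_zero]
    rw [h2, Fin.prod_univ_two]
    simp only [Matrix.cons_val_zero, Matrix.cons_val_one]
    rw [← Polynomial.C_pow, mul_comm (Polynomial.X ^ m 0), ← mul_assoc, ← Polynomial.C_mul,
      Polynomial.coeff_C_mul_X_pow]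
    by_cases h3 : m 0 = i
    · rw [if_pos h3, if_pos h3.symm]
    · rw [if_neg h3, if_neg fun h => h3 h.symm]
  rw [sum_congr rfl h1, ← sum_filter]
  have hdeg : ∀ m ∈ F.support, m 0 + m 1 = d := by
    intro m hm
    have h2 := hF.degree_eq_sum_deg_support hm
    have h3 : ∑ j ∈ m.support, m j = ∑ j : Fin 2, m j := by
      refine sum_subset (subset_univ _) fun j _ hj => ?_
      exact Finsupp.notMem_support_iff.1 hj
    rw [h3, Fin.sum_univ_two] at h2
    exact h2.symm
  have hcard : (F.support.filter fun m => m 0 = i).card ≤ 1 := by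
    rw [card_le_one]
    intro m hm n hn
    have hm' := mem_filter.1 hm
    have hn' := mem_filter.1 hn
    ext j
    fin_cases j
    · simp only [Fin.zero_eta]
      omega
    · have := hdeg m hm'.1
      have := hdeg n hn'.1
      simp only [Fin.mk_one]
      omega
  have hterm : ∀ m ∈ F.support.filter (fun m => m 0 = i), |F.coeff m * v ^ m 1| ≤
      ((H * V ^ d : ℕ) : ℤ) := by
    intro m hm
    have hm' := mem_filter.1 hm
    have h2 : m 1 ≤ d := by
      have := hdeg m hm'.1
      omega
    rw [abs_mul, abs_pow]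
    push_cast
    refine mul_le_mul (hH m) ?_ (by positivity) (by positivity)
    exact (pow_le_pow_left₀ (abs_nonneg v) hv _).trans
      (pow_le_pow_right₀ (by exact_mod_cast hV) h2)
  refine (abs_sum_le_sum_abs _ _).trans ((sum_le_card_nsmul _ _ _ hterm).trans ?_)
  rw [nsmul_eq_mul]
  have : ((F.support.filter fun m => m 0 = i).card : ℤ) ≤ 1 := by exact_mod_cast hcard
  nlinarith [show (0 : ℤ) ≤ ((H * V ^ d : ℕ) : ℤ) from by positivity]

end Pool.Agent.Q163.HC
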