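import Pool.Agent.Q163.HC.Cls

/-! Almost sure bounds for a random completely multiplicative function at polynomial values. -/

set_option autoImplicit false

namespace Pool.Agent.Q163.HC

open Finset Polynomial Filter MeasureTheory Pool.Agent.Q163.RP Pool.Agent.Q163.RX Pool.Agent.Q163.GC

/-- the polynomial with given coefficients -/
noncomputable def po {d : ℕ} (c : Fin (d + 1) → ℤ) : ℤ[X] :=
  ∑ i : Fin (d + 1), C (c i) * X ^ (i : ℕ)

lemma po_coeff {d : ℕ} (f : ℤ[X]) (hd : f.natDegree ≤ d) :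
    po (fun i : Fin (d + 1) => f.coeff i) = f := by
  unfold po
  rw [Fin.sum_univ_eq_sum_range (fun i => C (f.coeff i) * X ^ i) (d + 1)]
  conv_rhs => rw [f.as_sum_range' (d + 1) (by omega)]
  refine sum_congr rfl fun i _ => ?_
  rw [C_mul_X_pow_eq_monomial]

lemma eval_le (f : ℤ[X]) (d H : ℕ) (hd : f.natDegree ≤ d) (hc : ∀ i, |f.coeff i| ≤ H) (x : ℤ)
    (Z : ℕ) (hZ : 1 ≤ Z) (hx : |x| ≤ Z) : (f.eval x).natAbs ≤ (d + 1) * H * Z ^ d := by
  have h1 : |f.eval x| ≤ ((d + 1) * H * Z ^ d : ℕ) := by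
    rw [eval_eq_sum_range' (show f.natDegree < d + 1 by omega)]
    refine (abs_sum_le_sum_abs _ _).trans ?_
    have h2 : ∀ i ∈ range (d + 1), |f.coeff i * x ^ i| ≤ (H : ℤ) * (Z : ℤ) ^ d := by
      intro i hi
      rw [abs_mul, abs_pow]
      have h3 : |x| ^ i ≤ (Z : ℤ) ^ d :=
        (pow_le_pow_left₀ (abs_nonneg x) hx i).trans
          (pow_le_pow_right₀ (by exact_mod_cast hZ) (by
            have := mem_range.1 hi
            omega))
      exact mul_le_mul (hc i) h3 (by positivity) (by positivity)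
    refine (sum_le_sum h2).trans (le_of_eq ?_)
    rw [sum_const, card_range, nsmul_eq_mul]
    push_cast
    ring
  rw [← Int.natCast_natAbs] at h1
  exact_mod_cast h1

lemma log_le_of (n K B R : ℕ) (hK : 1 ≤ K) (hR : 1 ≤ R) (h : n ≤ K * R ^ B) :
    Real.log n ≤ Real.log K + B * Real.log R := by
  have hlK : 0 ≤ Real.log K := Real.log_natCast_nonneg K
  have hlR : 0 ≤ Real.log R := Real.log_natCast_nonneg R
  rcases Nat.eq_zero_or_pos n with h0 | h0
  · rw [h0, Nat.cast_zero, Real.log_zero]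
    positivity
  · have h1 : (n : ℝ) ≤ (K : ℝ) * (R : ℝ) ^ B := by exact_mod_cast h
    have hK' : (0 : ℝ) < K := by exact_mod_cast hK
    have hR' : (0 : ℝ) < R := by exact_mod_cast hR
    refine (Real.log_le_log (by exact_mod_cast h0) h1).trans (le_of_eq ?_)
    rw [Real.log_mul hK'.ne' (pow_pos hR' B).ne', Real.log_pow]

/-- the parameters: coefficients, base point, modulus, length -/
abbrev Par (d : ℕ) : Type := (Fin (d + 1) → ℤ) × ℤ × ℕ × ℕ

/-- the admissible parameters -/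
noncomputable def Tp (d A R : ℕ) : Finset (Par d) := by
  classical
  exact ((Fintype.piFinset fun _ : Fin (d + 1) => Icc (-((R : ℤ) ^ A)) ((R : ℤ) ^ A)) ×ˢ
    Icc (-((R : ℤ) ^ A)) ((R : ℤ) ^ A) ×ˢ Icc 1 (R ^ A) ×ˢ Icc 1 R).filter fun t =>
      ((po t.1).map (Int.castRingHom ℚ)).Separable ∧ 1 ≤ (po t.1).natDegree

lemma Tp_card (d A R : ℕ) (hR : 1 ≤ R) :
    ((Tp d A R).card : ℝ) ≤ 3 ^ (d + 2) * (R : ℝ) ^ (A * (d + 3) + 1) := by
  classical
  have h1 : (Tp d A R).card ≤ (2 * R ^ A + 1) ^ (d + 1) * ((2 * R ^ A + 1) * (R ^ A * R)) := by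
    unfold Tp
    refine (card_filter_le _ _).trans ?_
    rw [card_product, card_product, card_product, Fintype.card_piFinset]
    have e1 : (Icc (-((R : ℤ) ^ A)) ((R : ℤ) ^ A)).card = 2 * R ^ A + 1 := by
      rw [Int.card_Icc]
      have : ((R : ℤ) ^ A + 1 - -((R : ℤ) ^ A)) = ((2 * R ^ A + 1 : ℕ) : ℤ) := by
        push_cast
        ring
      rw [this, Int.toNat_natCast]
    simp only [e1, prod_const, card_univ, Fintype.card_fin, Nat.card_Icc, Nat.add_sub_cancel]
    exact le_rfl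
  have hRA : 1 ≤ R ^ A := Nat.one_le_pow _ _ (by omega)
  have h2 : 2 * R ^ A + 1 ≤ 3 * R ^ A := by omega
  have h3 : (2 * R ^ A + 1) ^ (d + 1) * ((2 * R ^ A + 1) * (R ^ A * R)) ≤
      3 ^ (d + 2) * R ^ (A * (d + 3) + 1) := by
    calc _ ≤ (3 * R ^ A) ^ (d + 1) * ((3 * R ^ A) * (R ^ A * R)) :=
          Nat.mul_le_mul (Nat.pow_le_pow_left h2 _) (Nat.mul_le_mul_right _ h2)
      _ = _ := by ring
  exact_mod_cast h1.trans h3

theorem ae_poly_fix (w : ℤ[X] → ℤ → ℕ → ℕ → ℝ) (hw : ∀ f b q k, |w f b q k| ≤ 1) (d A : ℕ)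
    (hd0 : 1 ≤ d) (ε : ℝ) (hε : 0 < ε) :
    ∀ᵐ ω ∂cm, ∀ᶠ R : ℕ in atTop, ∀ f : ℤ[X], (f.map (Int.castRingHom ℚ)).Separable →
      1 ≤ f.natDegree → f.natDegree ≤ d → (∀ i, |f.coeff i| ≤ ((R ^ A : ℕ) : ℤ)) →
      ∀ b : ℤ, |b| ≤ ((R ^ A : ℕ) : ℤ) → ∀ q : ℕ, 1 ≤ q → q ≤ R ^ A → ∀ L : ℕ, 1 ≤ L → L ≤ R →
      |∑ k ∈ (Icc 1 L).filter (fun k => pv f b q k ≠ 0),
        w f b q k * ch ω (pv f b q k).natAbs| ≤ (L : ℝ) ^ (3 / 4 : ℝ) * (R : ℝ) ^ ε := by
  classical
  obtain ⟨C, hC0, hC⟩ := class_bound d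
  set KM : ℕ := (d + 1) * 2 ^ d with hKM
  set BM : ℕ := A + (A + 1) * d with hBM
  set Kb : ℕ := 2 * ((2 * d).factorial * d ^ (2 * d)) with hKb
  set Bb : ℕ := A + A * (2 * d) with hBb
  have hKM1 : 1 ≤ KM := Nat.mul_pos (by omega) (by positivity)
  have hKb1 : 1 ≤ Kb := Nat.mul_pos (by omega) (Nat.mul_pos (Nat.factorial_pos _) (by positivity))
  set G : ℕ → ℝ := fun R => (Real.log Kb + Bb * Real.log R) + (Real.log (1 : ℕ) + A * Real.log R) +
    (Real.log KM + BM * Real.log R) + 2 with hG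
  have hG0 : ∀ R : ℕ, 1 ≤ R → 2 ≤ G R := by
    intro R _
    have h1 : 0 ≤ Real.log R := Real.log_natCast_nonneg R
    have h2 : 0 ≤ Real.log Kb := Real.log_natCast_nonneg Kb
    have h3 : 0 ≤ Real.log KM := Real.log_natCast_nonneg KM
    have h4 : 0 ≤ Real.log (1 : ℕ) := Real.log_natCast_nonneg 1
    have h5 : 0 ≤ (Bb : ℝ) * Real.log R := by positivity
    have h6 : 0 ≤ (A : ℝ) * Real.log R := by positivity
    have h7 : 0 ≤ (BM : ℝ) * Real.log R := by positivity
    simp only [hG]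
    linarith
  have hlogR : ∀ R : ℕ, 1 ≤ R → Real.log R ≤ (R : ℝ) ^ (ε / 4) / (ε / 4) := by
    intro R _
    exact Real.log_le_rpow_div (Nat.cast_nonneg R) (by positivity)
  have hM : ∀ R : ℕ, 1 ≤ R → ∀ t ∈ Tp d A R, ∀ k ∈ Icc 1 t.2.2.2,
      (pv (po t.1) t.2.1 t.2.2.1 k).natAbs ≤ KM * R ^ BM := by
    intro R hR t ht k hk
    unfold Tp at ht
    rw [mem_filter, mem_product, mem_product, mem_product, Fintype.mem_piFinset] at ht
    obtain ⟨⟨h1, h2, h3, h4⟩, h5, h6⟩ := ht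
    have hco : ∀ i, |(po t.1).coeff i| ≤ ((R ^ A : ℕ) : ℤ) := by
      intro i
      unfold po
      rw [finsetSum_coeff]
      simp_rw [coeff_C_mul_X_pow]
      by_cases hi : i < d + 1
      · rw [sum_eq_single (⟨i, hi⟩ : Fin (d + 1))]
        · rw [if_pos rfl]
          have := mem_Icc.1 (h1 ⟨i, hi⟩)
          rw [abs_le]
          push_cast
          exact this
        · intro j _ hj
          rw [if_neg]
          intro h7
          exact hj (Fin.ext h7.symm)
        · intro h7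
          exact absurd (mem_univ _) h7
      · rw [sum_eq_zero, abs_zero]
        · positivity
        · intro j _
          rw [if_neg]
          intro h7
          exact hi (h7 ▸ j.2)
    have hdeg : (po t.1).natDegree ≤ d := by
      unfold po
      refine natDegree_sum_le_of_forall_le _ _ fun i _ => ?_
      exact (natDegree_C_mul_X_pow_le _ _).trans (by omega)
    have hRA : 1 ≤ R ^ A := Nat.one_le_pow _ _ (by omega)
    have hk' := mem_Icc.1 hk
    have hL' := mem_Icc.1 h4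
    have hq' := mem_Icc.1 h3
    have hb' := mem_Icc.1 h2
    have hx : |t.2.1 + (t.2.2.1 : ℤ) * (k : ℤ)| ≤ ((2 * R ^ (A + 1) : ℕ) : ℤ) := by
      refine (abs_add_le _ _).trans ?_
      have e1 : |t.2.1| ≤ (R : ℤ) ^ (A + 1) := by
        have e2 : |t.2.1| ≤ (R : ℤ) ^ A := abs_le.2 hb'
        refine e2.trans ?_
        exact pow_le_pow_right₀ (by exact_mod_cast hR) (by omega)
      have e3 : |(t.2.2.1 : ℤ) * (k : ℤ)| ≤ (R : ℤ) ^ (A + 1) := by
        rw [abs_of_nonneg (by positivity), pow_succ]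
        have e4 : t.2.2.1 * k ≤ R ^ A * R := Nat.mul_le_mul hq'.2 (by omega)
        exact_mod_cast e4
      push_cast
      linarith
    refine (eval_le (po t.1) d (R ^ A) hdeg hco _ (2 * R ^ (A + 1)) (by
      have : 1 ≤ R ^ (A + 1) := Nat.one_le_pow _ _ (by omega)
      omega) hx).trans (le_of_eq ?_)
    rw [hKM, hBM]
    ring
  have hb : ∀ R : ℕ, 1 ≤ R → ∀ t ∈ Tp d A R,
      (bad (po t.1)).natAbs ≤ Kb * R ^ Bb ∧ (po t.1).natDegree ≤ d := by
    intro R hR t ht
    unfold Tp at ht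
    rw [mem_filter, mem_product, mem_product, mem_product, Fintype.mem_piFinset] at ht
    obtain ⟨⟨h1, h2, h3, h4⟩, h5, h6⟩ := ht
    have hco : ∀ i, |(po t.1).coeff i| ≤ ((R ^ A : ℕ) : ℤ) := by
      intro i
      unfold po
      rw [finsetSum_coeff]
      simp_rw [coeff_C_mul_X_pow]
      by_cases hi : i < d + 1
      · rw [sum_eq_single (⟨i, hi⟩ : Fin (d + 1))]
        · rw [if_pos rfl]
          have := mem_Icc.1 (h1 ⟨i, hi⟩)
          rw [abs_le]
          push_cast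
          exact this
        · intro j _ hj
          rw [if_neg]
          intro h7
          exact hj (Fin.ext h7.symm)
        · intro h7
          exact absurd (mem_univ _) h7
      · rw [sum_eq_zero, abs_zero]
        · positivity
        · intro j _
          rw [if_neg]
          intro h7
          exact hi (h7 ▸ j.2)
    have hdeg : (po t.1).natDegree ≤ d := by
      unfold po
      refine natDegree_sum_le_of_forall_le _ _ fun i _ => ?_
      exact (natDegree_C_mul_X_pow_le _ _).trans (by omega)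
    have hRA : 1 ≤ R ^ A := Nat.one_le_pow _ _ (by omega)
    have h7 := bad_le (po t.1) d (R ^ A) h6 hdeg hRA hco
    refine ⟨?_, hdeg⟩
    have h8 : ((bad (po t.1)).natAbs : ℝ) ≤ ((Kb * R ^ Bb : ℕ) : ℝ) := by
      refine h7.trans (le_of_eq ?_)
      rw [hKb, hBb]
      push_cast
      ring
    exact_mod_cast h8
  have hmain := ae_main (τ := Par d) (ι := ℕ) (Tp d A) (A * (d + 3) + 1) (3 ^ (d + 2))
    (fun R hR => Tp_card d A R hR)
    (fun _ t => (Icc 1 t.2.2.2).filter fun k => pv (po t.1) t.2.1 t.2.2.1 k ≠ 0)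
    (fun _ t k => w (po t.1) t.2.1 t.2.2.1 k)
    (fun _ t k => (pv (po t.1) t.2.1 t.2.2.1 k).natAbs) BM KM (by exact_mod_cast hKM1)
    (fun R hR t ht k hk => by
      have hk' := mem_filter.1 hk
      refine ⟨Int.natAbs_pos.2 hk'.2, ?_⟩
      exact_mod_cast hM R hR t ht k hk'.1)
    (fun R t => (C * Real.sqrt t.2.2.2 * G R + 1) * t.2.2.2)
    (fun R hR t ht => by
      unfold Tp at ht
      rw [mem_filter, mem_product, mem_product, mem_product] at ht
      have hL := (mem_Icc.1 ht.1.2.2.2).1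
      have hL' : (0 : ℝ) < t.2.2.2 := by exact_mod_cast hL
      have := hG0 R hR
      positivity)
    (fun R hR t ht => by
      have ht' := ht
      unfold Tp at ht'
      rw [mem_filter, mem_product, mem_product, mem_product] at ht'
      have hL := mem_Icc.1 ht'.1.2.2.2
      have hq := mem_Icc.1 ht'.1.2.2.1
      obtain ⟨hb1, hb2⟩ := hb R hR t ht
      have hG1 := hG0 R hR
      refine ⟨⌊C * Real.sqrt t.2.2.2 * G R⌋₊ + 1, fun U => ?_, ?_⟩
      · rw [filter_filter]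
        have h1 := hC (po t.1) t.2.1 t.2.2.1 t.2.2.2 (KM * R ^ BM) U ht'.2.1 ht'.2.2 hb2 hq.1 hL.1
          (hM R hR t ht)
        have h2 : C * Real.sqrt t.2.2.2 * (Real.log ((bad (po t.1)).natAbs) + Real.log t.2.2.1 +
            Real.log ((KM * R ^ BM : ℕ) : ℝ) + 2) ≤ C * Real.sqrt t.2.2.2 * G R := by
          refine mul_le_mul_of_nonneg_left ?_ (by positivity)
          have h3 := log_le_of _ Kb Bb R hKb1 hR hb1
          have h4 := log_le_of t.2.2.1 1 A R le_rfl hR (by rw [one_mul]; exact hq.2)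
          have h5 := log_le_of (KM * R ^ BM) KM BM R hKM1 hR le_rfl
          simp only [hG]
          linarith
        have h6 := h1.trans h2
        exact (Nat.le_floor h6).trans (Nat.le_succ _)
      · have h1 : ∑ k ∈ (Icc 1 t.2.2.2).filter (fun k => pv (po t.1) t.2.1 t.2.2.1 k ≠ 0),
            w (po t.1) t.2.1 t.2.2.1 k ^ 2 ≤ t.2.2.2 := by
          have h2 : ∀ k ∈ (Icc 1 t.2.2.2).filter (fun k => pv (po t.1) t.2.1 t.2.2.1 k ≠ 0),
              w (po t.1) t.2.1 t.2.2.1 k ^ 2 ≤ 1 := by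
            intro k _
            rw [sq_le_one_iff_abs_le_one]
            exact hw _ _ _ _
          refine (sum_le_sum h2).trans ?_
          rw [sum_const, nsmul_eq_mul, mul_one]
          have h3 := card_filter_le (Icc 1 t.2.2.2) (fun k => pv (po t.1) t.2.1 t.2.2.1 k ≠ 0)
          rw [Nat.card_Icc, Nat.add_sub_cancel] at h3
          exact_mod_cast h3
        have h2 : ((⌊C * Real.sqrt t.2.2.2 * G R⌋₊ + 1 : ℕ) : ℝ) ≤
            C * Real.sqrt t.2.2.2 * G R + 1 := by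
          push_cast
          have := Nat.floor_le (a := C * Real.sqrt t.2.2.2 * G R) (by positivity)
          linarith
        exact mul_le_mul h2 h1 (sum_nonneg fun _ _ => sq_nonneg _) (by positivity))
    (ε / 4) (by positivity)
  -- constants
  set K1 : ℝ := C * (Real.log Kb + Real.log (1 : ℕ) + Real.log KM + 2 + (Bb + A + BM) / (ε / 4)) + 1
    with hK1
  have hlKb : 0 ≤ Real.log Kb := Real.log_natCast_nonneg Kb
  have hlKM : 0 ≤ Real.log KM := Real.log_natCast_nonneg KM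
  have hl1 : 0 ≤ Real.log (1 : ℕ) := Real.log_natCast_nonneg 1
  have hK10 : 0 < K1 := by positivity
  have hlarge : ∀ᶠ R : ℕ in atTop, K1 ≤ (R : ℝ) ^ (ε / 4) :=
    ((tendsto_rpow_atTop (by positivity)).comp tendsto_natCast_atTop_atTop).eventually_ge_atTop _
  filter_upwards [hmain] with ω hω
  filter_upwards [hω, hlarge, eventually_ge_atTop 1] with R hR1 hR2 hR
  intro f hs hd1 hd hc b hb' q hq1 hq2 L hL1 hL2
  have hRR : (1 : ℝ) ≤ R := by exact_mod_cast hR
  have ht : ((fun i : Fin (d + 1) => f.coeff i), b, q, L) ∈ Tp d A R := by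
    unfold Tp
    rw [mem_filter, mem_product, mem_product, mem_product, Fintype.mem_piFinset]
    refine ⟨⟨fun i => ?_, ?_, ?_, ?_⟩, ?_⟩
    · have := abs_le.1 (hc i)
      push_cast at this
      exact mem_Icc.2 this
    · have := abs_le.1 hb'
      push_cast at this
      exact mem_Icc.2 this
    · exact mem_Icc.2 ⟨hq1, hq2⟩
    · exact mem_Icc.2 ⟨hL1, hL2⟩
    · simp only
      rw [po_coeff f hd]
      exact ⟨hs, hd1⟩
  have h1 := hR1 _ ht
  simp only at h1
  rw [po_coeff f hd] at h1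
  refine h1.trans ?_
  have hL0 : (0 : ℝ) < L := by exact_mod_cast hL1
  have hL1' : (1 : ℝ) ≤ L := by exact_mod_cast hL1
  have hX1 : 1 ≤ (R : ℝ) ^ (ε / 4) := Real.one_le_rpow hRR (by positivity)
  have hG1 : C * G R + 1 ≤ K1 * (R : ℝ) ^ (ε / 4) := by
    have h2 := hlogR R hR
    have h3 : G R ≤ (Real.log Kb + Real.log (1 : ℕ) + Real.log KM + 2 + (Bb + A + BM) / (ε / 4)) *
        (R : ℝ) ^ (ε / 4) := by
      have h4 : (Bb + A + BM : ℝ) * Real.log R ≤ (Bb + A + BM) / (ε / 4) * (R : ℝ) ^ (ε / 4) := by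
        refine (mul_le_mul_of_nonneg_left h2 (by positivity)).trans (le_of_eq ?_)
        ring
      have h5 : (Real.log Kb + Real.log (1 : ℕ) + Real.log KM + 2) ≤
          (Real.log Kb + Real.log (1 : ℕ) + Real.log KM + 2) * (R : ℝ) ^ (ε / 4) :=
        le_mul_of_one_le_right (by positivity) hX1
      simp only [hG]
      nlinarith
    have h6 := mul_le_mul_of_nonneg_left h3 hC0.le
    rw [hK1]
    nlinarith
  have hY : (C * Real.sqrt L * G R + 1) * L ≤ (K1 * (R : ℝ) ^ (ε / 4)) * (L : ℝ) ^ (3 / 2 : ℝ) := by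
    have hsL : 1 ≤ Real.sqrt L := by rwa [Real.one_le_sqrt]
    have h2 : C * Real.sqrt L * G R + 1 ≤ (C * G R + 1) * Real.sqrt L := by nlinarith
    have h3 : (L : ℝ) ^ (3 / 2 : ℝ) = Real.sqrt L * L := by
      rw [Real.sqrt_eq_rpow]
      nth_rewrite 3 [← Real.rpow_one (L : ℝ)]
      rw [← Real.rpow_add hL0]
      norm_num
    rw [h3]
    calc (C * Real.sqrt L * G R + 1) * L ≤ ((C * G R + 1) * Real.sqrt L) * L :=
          mul_le_mul_of_nonneg_right h2 hL0.le
      _ ≤ ((K1 * (R : ℝ) ^ (ε / 4)) * Real.sqrt L) * L := by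
          refine mul_le_mul_of_nonneg_right ?_ hL0.le
          exact mul_le_mul_of_nonneg_right hG1 (by positivity)
      _ = _ := by ring
  have hsq : Real.sqrt ((C * Real.sqrt L * G R + 1) * L) ≤
      (R : ℝ) ^ (ε / 4) * (L : ℝ) ^ (3 / 4 : ℝ) := by
    rw [← Real.sqrt_sq (show 0 ≤ (R : ℝ) ^ (ε / 4) * (L : ℝ) ^ (3 / 4 : ℝ) by positivity)]
    refine Real.sqrt_le_sqrt (hY.trans ?_)
    have h4 : ((L : ℝ) ^ (3 / 4 : ℝ)) ^ 2 = (L : ℝ) ^ (3 / 2 : ℝ) := by
      rw [← Real.rpow_natCast, ← Real.rpow_mul hL0.le]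
      norm_num
    rw [mul_pow, h4, sq]
    refine mul_le_mul_of_nonneg_right ?_ (by positivity)
    exact mul_le_mul_of_nonneg_right hR2 (by positivity)
  calc (R : ℝ) ^ (ε / 4) * Real.sqrt ((C * Real.sqrt L * G R + 1) * L) ≤
        (R : ℝ) ^ (ε / 4) * ((R : ℝ) ^ (ε / 4) * (L : ℝ) ^ (3 / 4 : ℝ)) :=
        mul_le_mul_of_nonneg_left hsq (by positivity)
    _ = (L : ℝ) ^ (3 / 4 : ℝ) * (R : ℝ) ^ (ε / 2) := by
        rw [← mul_assoc, ← Real.rpow_add (by linarith), mul_comm]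
        congr 2
        ring
    _ ≤ (L : ℝ) ^ (3 / 4 : ℝ) * (R : ℝ) ^ ε := by
        refine mul_le_mul_of_nonneg_left ?_ (by positivity)
        exact Real.rpow_le_rpow_of_exponent_le hRR (by linarith)

end Pool.Agent.Q163.HC
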