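import Pool.Agent.Q163.HC.PolyAe
import Pool.Agent.Q163.HC.Sqf
import Pool.Agent.Q163.HC.Form
import Pool.Agent.Q163.EX.Exp

/-! The power saving property and its consequences for binary forms. -/

set_option autoImplicit false

namespace Pool.Agent.Q163.HC

open Finset Filter Topology MeasureTheory Pool.Agent.Q163.RP Pool.Agent.Q163.RX
  Pool.Agent.Q163.GC

/-- the conditions on a polynomial and a progression at the scale `X` -/
def Admi (d A X : ℕ) (f : Polynomial ℤ) (b : ℤ) (q L : ℕ) : Prop :=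
  Squarefree (f.map (Int.castRingHom ℚ)) ∧ 1 ≤ f.natDegree ∧ f.natDegree ≤ d ∧
    (∀ i, |f.coeff i| ≤ (X : ℤ) ^ A) ∧ |b| ≤ (X : ℤ) ^ A ∧ 1 ≤ q ∧ q ≤ X ^ A ∧ L ≤ X

/-- power saving, uniform in the polynomial, in the progression and in the length -/
def Savi (g : ℤ → ℝ) : Prop :=
  ∀ (d A : ℕ) (ε : ℝ), 0 < ε → ∀ᶠ X : ℕ in atTop, ∀ (f : Polynomial ℤ) (b : ℤ) (q L : ℕ),
    Admi d A X f b q L →
      |∑ k ∈ Icc 1 L, g (f.eval (b + q * (k : ℤ)))| ≤ (L : ℝ) ^ (3 / 4 : ℝ) * (X : ℝ) ^ ε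

theorem ae_savi (g : ℤ → ℝ) (hg : ∀ n, |g n| ≤ 1) (hg0 : g 0 = 0) :
    ∀ᵐ ω ∂cm, Savi fun n => g n * ch ω n.natAbs := by
  have h1 : ∀ᵐ ω ∂cm, ∀ (d A n : ℕ), ∀ᶠ R : ℕ in atTop, ∀ f : Polynomial ℤ,
      (f.map (Int.castRingHom ℚ)).Separable →
      1 ≤ f.natDegree → f.natDegree ≤ d + 1 → (∀ i, |f.coeff i| ≤ ((R ^ A : ℕ) : ℤ)) →
      ∀ b : ℤ, |b| ≤ ((R ^ A : ℕ) : ℤ) → ∀ q : ℕ, 1 ≤ q → q ≤ R ^ A → ∀ L : ℕ, 1 ≤ L → L ≤ R →
      |∑ k ∈ (Icc 1 L).filter (fun k => pv f b q k ≠ 0),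
        g (f.eval (b + q * (k : ℤ))) * ch ω (pv f b q k).natAbs| ≤
        (L : ℝ) ^ (3 / 4 : ℝ) * (R : ℝ) ^ (1 / ((n : ℝ) + 1)) := by
    rw [ae_all_iff]
    intro d
    rw [ae_all_iff]
    intro A
    rw [ae_all_iff]
    intro n
    exact ae_poly_fix (fun f b q k => g (f.eval (b + q * (k : ℤ)))) (fun _ _ _ _ => hg _) (d + 1) A
      (by omega) _ (by positivity)
  filter_upwards [h1] with ω hω d A ε hε
  obtain ⟨n, hn⟩ := exists_nat_one_div_lt hε
  filter_upwards [hω d A n, eventually_ge_atTop 1] with X hX hX1 f b q L hadm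
  obtain ⟨ha1, ha2, ha3, ha4, ha5, ha6, ha7, ha8⟩ := hadm
  have hXX : (1 : ℝ) ≤ X := by exact_mod_cast hX1
  rcases Nat.eq_zero_or_pos L with hL | hL
  · rw [hL]
    simp only [Icc_eq_empty_of_lt zero_lt_one, sum_empty, abs_zero]
    positivity
  have h2 := hX f (PerfectField.separable_iff_squarefree.2 ha1) ha2 (by omega)
    (fun i => by push_cast; exact ha4 i) b (by push_cast; exact ha5) q ha6 ha7 L hL ha8
  have h3 : ∑ k ∈ Icc 1 L, g (f.eval (b + q * (k : ℤ))) *
      ch ω (f.eval (b + q * (k : ℤ))).natAbs =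
      ∑ k ∈ (Icc 1 L).filter (fun k => pv f b q k ≠ 0),
        g (f.eval (b + q * (k : ℤ))) * ch ω (pv f b q k).natAbs := by
    rw [sum_filter]
    refine sum_congr rfl fun k _ => ?_
    split_ifs with h
    · rfl
    · have h4 : f.eval (b + q * (k : ℤ)) = 0 := not_not.1 h
      rw [h4, hg0, zero_mul]
  rw [h3]
  refine h2.trans (mul_le_mul_of_nonneg_left ?_ (by positivity))
  exact Real.rpow_le_rpow_of_exponent_le hXX hn.le

/-- a residue class in an interval -/
lemma class_int (F : ℤ → ℝ) (α β : ℤ) (X : ℕ) (hα : -(X : ℤ) ≤ α) (hβ : β ≤ X) (a : ℤ) (N : ℕ)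
    (hN : 1 ≤ N) (hαX : α ≤ X) :
    ∃ (b' : ℤ) (L : ℕ), |b'| ≤ X + N ∧ (L : ℤ) * N ≤ 2 * X + N ∧
      ∑ u ∈ (Icc α β).filter (fun u => u % N = a % N), F u = ∑ k ∈ Icc 1 L, F (b' + N * (k : ℤ)) := by
  have hN0 : (0 : ℤ) < N := by exact_mod_cast hN
  set r : ℤ := α + (a - α) % N with hr
  have hr0 := Int.emod_nonneg (a - α) hN0.ne'
  have hr1 := Int.emod_lt_of_pos (a - α) hN0
  have hrm : r % N = a % N := by
    rw [hr, Int.add_emod, Int.emod_emod_of_dvd _ (dvd_refl _), ← Int.add_emod]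
    congr 1
    ring
  refine ⟨r - N, ((β - r + N) / N).toNat, ?_, ?_, ?_⟩
  · rw [abs_le]
    constructor <;> omega
  · by_cases h : 0 ≤ (β - r + N) / N
    · rw [Int.toNat_of_nonneg h]
      have := Int.ediv_mul_le (β - r + N) hN0.ne'
      omega
    · rw [Int.toNat_of_nonpos (by omega)]
      push_cast
      rw [zero_mul]
      positivity
  · symm
    refine sum_nbij' (fun k => r - N + N * (k : ℤ)) (fun u => ((u - r) / N + 1).toNat) ?_ ?_ ?_ ?_ ?_
    · intro k hk
      rw [mem_Icc] at hk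
      rw [mem_filter, mem_Icc]
      have h1 : (k : ℤ) ≤ (β - r + N) / N := by
        have h2 : ((k : ℕ) : ℤ) ≤ (((β - r + N) / N).toNat : ℤ) := by exact_mod_cast hk.2
        by_contra hc
        have h3 : (((β - r + N) / N).toNat : ℤ) ≤ max ((β - r + N) / N) 0 := by
          rw [Int.ofNat_toNat]
        have h4 : (1 : ℤ) ≤ k := by exact_mod_cast hk.1
        rcases le_total ((β - r + N) / N) 0 with h5 | h5
        · rw [max_eq_right h5] at h3
          omega
        · rw [max_eq_left h5] at h3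
          omega
      have h2 := (Int.le_ediv_iff_mul_le hN0).1 h1
      have h3 : (1 : ℤ) ≤ k := by exact_mod_cast hk.1
      have h4 : (N : ℤ) * 1 ≤ N * k := by nlinarith
      refine ⟨⟨by linarith, by linarith⟩, ?_⟩
      rw [← hrm]
      have h5 : r - N + N * (k : ℤ) = r + N * ((k : ℤ) - 1) := by ring
      rw [h5, Int.add_mul_emod_self_left]
    · intro u hu
      rw [mem_filter, mem_Icc] at hu
      have h1 : r ≤ u := by
        by_contra hc
        have h2 : u - α < (a - α) % N := by omega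
        have h3 : (u - α) % N = (a - α) % N := by
          rw [Int.sub_emod, hu.2, ← Int.sub_emod]
        rw [Int.emod_eq_of_lt (by omega) (by omega)] at h3
        omega
      have h2 : 0 ≤ (u - r) / N := Int.ediv_nonneg (by omega) hN0.le
      rw [mem_Icc]
      constructor
      · omega
      · refine Int.toNat_le_toNat ?_
        rw [Int.le_ediv_iff_mul_le hN0]
        have h3 := Int.ediv_mul_le (u - r) hN0.ne'
        nlinarith
    · intro k hk
      rw [mem_Icc] at hk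
      have h1 : r - N + N * (k : ℤ) - r = N * ((k : ℤ) - 1) := by ring
      rw [h1, Int.mul_ediv_cancel_left _ hN0.ne']
      omega
    · intro u hu
      rw [mem_filter, mem_Icc] at hu
      have h1 : r ≤ u := by
        by_contra hc
        have h2 : u - α < (a - α) % N := by omega
        have h3 : (u - α) % N = (a - α) % N := by
          rw [Int.sub_emod, hu.2, ← Int.sub_emod]
        rw [Int.emod_eq_of_lt (by omega) (by omega)] at h3
        omega
      have h2 : 0 ≤ (u - r) / N := Int.ediv_nonneg (by omega) hN0.le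
      rw [Int.toNat_of_nonneg (by omega)]
      have h3 : (N : ℤ) ∣ u - r := Int.dvd_of_emod_eq_zero (by
        rw [Int.sub_emod, hu.2, hrm, sub_self, Int.zero_emod])
      have h4 := Int.mul_ediv_cancel' h3
      linarith
    · intro k _
      rfl

/-- degree of the rows -/
lemma row_deg (F : MvPolynomial (Fin 2) ℤ) (d : ℕ) (hF : F.IsHomogeneous d)
    (hU : ∃ m ∈ F.support, m 0 ≠ 0) (v : ℤ) (hv : v ≠ 0) : 1 ≤ (row F v).natDegree := by
  by_contra hc
  have h0 : (row F v).natDegree = 0 := by omega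
  obtain ⟨m, hm, hm0⟩ := hU
  set G : MvPolynomial (Fin 2) ℚ := MvPolynomial.map (Int.castRingHom ℚ) F with hG
  have hGh : G.IsHomogeneous d := hF.map _
  have hvQ : (v : ℚ) ≠ 0 := by exact_mod_cast hv
  have h1 : row G (v : ℚ) = Polynomial.C ((row F v).coeff 0 : ℚ) := by
    have h2 := row_map (Int.castRingHom ℚ) F v
    rw [eq_intCast] at h2
    rw [hG, ← h2, Polynomial.eq_C_of_natDegree_eq_zero h0, Polynomial.map_C]
    simp
  have h2 : G = MvPolynomial.C (((row F v).coeff 0 : ℚ) / (v : ℚ) ^ d) * MvPolynomial.X 1 ^ d := by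
    refine funext_ne _ _ fun x y hy => ?_
    have h3 := congrArg (Polynomial.eval (x * v / y)) h1
    rw [row_eval, Polynomial.eval_C] at h3
    have h4 := eval_smul_form G d hGh (y / v) ![x * v / y, v]
    rw [h3] at h4
    have h5 : (fun i => y / (v : ℚ) * (![x * v / y, (v : ℚ)] : Fin 2 → ℚ) i) = ![x, y] := by
      funext i
      fin_cases i
      · simp only [Fin.zero_eta, Matrix.cons_val_zero]
        field_simp
      · show y / (v : ℚ) * v = y
        field_simp
    rw [h5] at h4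
    rw [h4, map_mul, MvPolynomial.eval_C, map_pow, MvPolynomial.eval_X]
    show (y / (v : ℚ)) ^ d * ((row F v).coeff 0 : ℚ) = ((row F v).coeff 0 : ℚ) / (v : ℚ) ^ d * y ^ d
    rw [div_pow]
    ring
  have h3 : G.coeff m ≠ 0 := by
    rw [hG, MvPolynomial.coeff_map, eq_intCast]
    exact_mod_cast MvPolynomial.mem_support_iff.1 hm
  apply h3
  rw [h2, MvPolynomial.coeff_C_mul, MvPolynomial.coeff_X_pow, if_neg, mul_zero]
  intro h4
  apply hm0
  rw [← h4]
  simp

end Pool.Agent.Q163.HC
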