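import Pool.Agent.H341R2.WeilSharp
import Pool.Agent.Helper590.Ke.Sieve
import Pool.Agent.Erdos456.Mertens

/-! A square sieve: values of a polynomial with the same squarefree part. -/

set_option autoImplicit false

namespace Pool.Agent.Q163.HC

open Finset Polynomial

/-- the number of arguments at which the quadratic character of a polynomial is zero or a given
sign -/
theorem res_count (p : ℕ) [Fact p.Prime] (hp2 : p ≠ 2) (f : (ZMod p)[X]) (hd : 1 ≤ f.natDegree)
    (hns : ∀ (c : ZMod p) (h : (ZMod p)[X]), f ≠ C c * h ^ 2) (s : ℤ) (hs : s = 1 ∨ s = -1) :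
    ((univ.filter fun x : ZMod p => quadraticChar (ZMod p) (f.eval x) = 0 ∨
      quadraticChar (ZMod p) (f.eval x) = s).card : ℝ) ≤
      (p + 2 * f.natDegree * Real.sqrt p) / 2 := by
  classical
  have hf0 : f ≠ 0 := by
    rintro rfl
    simp at hd
  have h1 := Pool.Agent.H341R2.Sharp.weil_sharp (F := ZMod p)
    (by rw [ZMod.ringChar_zmod_n]; exact hp2) f hd hns
  rw [ZMod.card] at h1
  have h2 : ((univ.filter fun x : ZMod p => quadraticChar (ZMod p) (f.eval x) = 0 ∨
      quadraticChar (ZMod p) (f.eval x) = s).card : ℝ) =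
      ∑ x : ZMod p, ((1 : ℝ) + (if f.eval x = 0 then 1 else 0) +
        s * (quadraticChar (ZMod p) (f.eval x) : ℝ)) / 2 := by
    rw [card_filter]
    push_cast
    refine sum_congr rfl fun x _ => ?_
    by_cases h3 : f.eval x = 0
    · rw [h3, quadraticChar_zero]
      norm_num
    · rw [if_neg h3]
      have h4 := quadraticChar_dichotomy h3
      rcases h4 with h4 | h4 <;> rcases hs with h5 | h5 <;> rw [h4, h5] <;> norm_num
  rw [h2, ← sum_div, sum_add_distrib, sum_add_distrib, ← mul_sum]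
  have h3 : ∑ x : ZMod p, (1 : ℝ) = p := by
    rw [sum_const, card_univ, ZMod.card, nsmul_eq_mul, mul_one]
  have h4 : ∑ x : ZMod p, (if f.eval x = 0 then (1 : ℝ) else 0) ≤ f.natDegree := by
    rw [← sum_filter, sum_const, nsmul_eq_mul, mul_one]
    have h5 : (univ.filter fun x : ZMod p => f.eval x = 0) ⊆ f.roots.toFinset := by
      intro x hx
      rw [Multiset.mem_toFinset, mem_roots hf0]
      exact (mem_filter.1 hx).2
    have h6 := (card_le_card h5).trans (Multiset.toFinset_card_le _)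
    exact_mod_cast h6.trans (card_roots' f)
  have h5 : (s : ℝ) * ∑ x : ZMod p, (quadraticChar (ZMod p) (f.eval x) : ℝ) ≤
      (f.natDegree - 1) * Real.sqrt p := by
    refine (le_abs_self _).trans ?_
    rw [abs_mul]
    have : |(s : ℝ)| = 1 := by
      rcases hs with h | h <;> rw [h] <;> norm_num
    rw [this, one_mul]
    exact h1
  have hd' : (1 : ℝ) ≤ f.natDegree := by exact_mod_cast hd
  have h6 : (1 : ℝ) ≤ Real.sqrt p := by
    rw [Real.one_le_sqrt]
    exact_mod_cast (Fact.out : p.Prime).one_lt.le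
  rw [h3]
  nlinarith

lemma log_le_four (n : ℕ) (hn : 1 ≤ n) : Real.log n ≤ 4 * (n : ℝ) ^ (1 / 4 : ℝ) := by
  have h1 := Real.log_le_rpow_div (x := (n : ℝ)) (by positivity) (ε := 1 / 4) (by norm_num)
  linarith

/-- the sum of `log p / p` over the prime divisors -/
lemma sum_dvd : ∃ C : ℝ, 0 ≤ C ∧ ∀ (N Q : ℕ), 1 ≤ N →
    ∑ p ∈ ((Icc 1 Q).filter Nat.Prime).filter (fun p => p ∣ N), Real.log p / p ≤
      Real.log (Real.log N + 2) + C := by
  obtain ⟨C, hC⟩ := Pool.Agent.Erdos456.Mert.mertens_log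
  have hC0 : 0 ≤ C := (abs_nonneg _).trans (hC 1 le_rfl)
  refine ⟨C + 1 + Real.log 2, by positivity, fun N Q hN => ?_⟩
  have hlN : 0 ≤ Real.log N := Real.log_natCast_nonneg N
  set z : ℝ := Real.log N + 2 with hz
  set Z : ℕ := ⌈z⌉₊ with hZ
  have hZ1 : z ≤ Z := Nat.le_ceil z
  have hZ2 : (Z : ℝ) < z + 1 := Nat.ceil_lt_add_one (by linarith)
  have hZ0 : 1 ≤ Z := by
    have : (1 : ℝ) ≤ Z := by linarith
    exact_mod_cast this
  set P := ((Icc 1 Q).filter Nat.Prime).filter (fun p => p ∣ N) with hP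
  have hsplit := sum_filter_add_sum_filter_not P (fun p => p ≤ Z) (fun p => Real.log p / p)
  rw [← hsplit]
  have h1 : ∑ p ∈ P.filter (fun p => p ≤ Z), Real.log p / p ≤ Real.log z + Real.log 2 + C := by
    have h2 : ∑ p ∈ P.filter (fun p => p ≤ Z), Real.log p / p ≤
        ∑ p ∈ (Icc 1 Z).filter Nat.Prime, Real.log p / p := by
      refine sum_le_sum_of_subset_of_nonneg ?_ ?_
      · intro p hp
        simp only [hP, mem_filter, mem_Icc] at hp ⊢
        exact ⟨⟨hp.1.1.1.1, hp.2⟩, hp.1.1.2⟩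
      · intro p _ _
        exact div_nonneg (Real.log_natCast_nonneg p) (Nat.cast_nonneg p)
    have h3 := (abs_le.1 (hC Z hZ0)).2
    have h4 : Real.log Z ≤ Real.log z + Real.log 2 := by
      rw [← Real.log_mul (by linarith) (by norm_num)]
      refine Real.log_le_log (by linarith) (by linarith)
    linarith
  have h2 : ∑ p ∈ P.filter (fun p => ¬ p ≤ Z), Real.log p / p ≤ 1 := by
    have h3 : ∀ p ∈ P.filter (fun p => ¬ p ≤ Z), Real.log p / p ≤ Real.log p / z := by
      intro p hp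
      have h4 : Z < p := not_le.1 (mem_filter.1 hp).2
      have h5 : (Z : ℝ) ≤ p := by exact_mod_cast h4.le
      exact div_le_div_of_nonneg_left (Real.log_natCast_nonneg p) (by linarith) (by linarith)
    refine (sum_le_sum h3).trans ?_
    rw [← sum_div, div_le_one (by linarith)]
    have h6 := Pool.Agent.Helper590.Ke.sum_log_le ((Icc 1 Q).filter Nat.Prime)
      (fun p hp => (mem_filter.1 hp).2) N (by omega)
    refine ((sum_le_sum_of_subset_of_nonneg (filter_subset _ _) ?_).trans h6).trans (by linarith)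
    intro p _ _
    exact Real.log_natCast_nonneg p
  linarith

/-- the sum of `log p / p ^ (3/2)` -/
lemma sum_three_half : ∃ C : ℝ, 0 ≤ C ∧ ∀ P : Finset ℕ, (∀ p ∈ P, 1 ≤ p) →
    ∑ p ∈ P, Real.log p / (p * Real.sqrt p) ≤ C := by
  have hs : Summable fun n : ℕ => 4 * (1 / (n : ℝ) ^ (5 / 4 : ℝ)) :=
    (Real.summable_one_div_nat_rpow.2 (by norm_num)).mul_left 4
  refine ⟨∑' n : ℕ, 4 * (1 / (n : ℝ) ^ (5 / 4 : ℝ)), tsum_nonneg fun n => by positivity,
    fun P hP => ?_⟩
  refine (sum_le_sum fun p hp => ?_).trans (hs.sum_le_tsum P fun n _ => by positivity)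
  have hp1 : (0 : ℝ) < p := by exact_mod_cast hP p hp
  have h1 := log_le_four p (hP p hp)
  have h2 : (p : ℝ) * Real.sqrt p = (p : ℝ) ^ (1 / 4 : ℝ) * (p : ℝ) ^ (5 / 4 : ℝ) := by
    rw [Real.sqrt_eq_rpow, ← Real.rpow_add hp1]
    nth_rewrite 1 [← Real.rpow_one (p : ℝ)]
    rw [← Real.rpow_add hp1]
    norm_num
  rw [h2, ← mul_div_assoc, mul_one, div_le_div_iff₀ (by positivity) (by positivity)]
  nlinarith [Real.rpow_pos_of_pos hp1 (5 / 4 : ℝ)]

/-- **The larger sieve with about half of the classes modulo almost every prime.** -/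
theorem sieve_bound (d : ℕ) : ∃ C : ℝ, 0 < C ∧ ∀ (S : Finset ℕ) (L N : ℕ), 1 ≤ L → 1 ≤ N →
    (∀ k ∈ S, k ≤ L) →
    (∀ p : ℕ, p.Prime → ¬ p ∣ N →
      ((S.image (fun b : ℕ => (b : ZMod p))).card : ℝ) ≤ (p + 2 * d * Real.sqrt p) / 2) →
    (S.card : ℝ) ≤ C * Real.sqrt L * (Real.log N + 2) := by
  obtain ⟨C1, hC1⟩ := Pool.Agent.Erdos456.Mert.mertens_log
  have hC10 : 0 ≤ C1 := (abs_nonneg _).trans (hC1 1 le_rfl)
  obtain ⟨C2, hC20, hC2⟩ := sum_dvd
  obtain ⟨C3, hC30, hC3⟩ := sum_three_half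
  set C4 : ℝ := 2 * C1 + 2 * C2 + 4 * d * C3 with hC4
  set K : ℝ := Real.exp ((C4 + 1) / 2) with hK
  have hK1 : 1 ≤ K := Real.one_le_exp (by positivity)
  refine ⟨2 * K * Real.log 4, by positivity, fun S L N hL hN hS hc => ?_⟩
  have hlN : 0 ≤ Real.log N := Real.log_natCast_nonneg N
  set z : ℝ := Real.log N + 2 with hz
  have hL1 : (1 : ℝ) ≤ L := by exact_mod_cast hL
  have hsL : 1 ≤ Real.sqrt L := by rwa [Real.one_le_sqrt]
  rcases Nat.eq_zero_or_pos S.card with h0 | h0
  · rw [h0, Nat.cast_zero]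
    positivity
  set Q : ℕ := ⌈K * z * Real.sqrt L⌉₊ with hQ
  have hKz : 1 ≤ K * z * Real.sqrt L := by
    have h1 : (1 : ℝ) ≤ z := by linarith
    exact one_le_mul_of_one_le_of_one_le (one_le_mul_of_one_le_of_one_le hK1 h1) hsL
  have hQ1 : K * z * Real.sqrt L ≤ Q := Nat.le_ceil _
  have hQ2 : (Q : ℝ) ≤ 2 * (K * z * Real.sqrt L) := by
    have := Nat.ceil_lt_add_one (zero_le_one.trans hKz)
    linarith
  have hQ0 : 1 ≤ Q := by
    have : (1 : ℝ) ≤ Q := by linarith
    exact_mod_cast this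
  set P : Finset ℕ := ((Icc 1 Q).filter Nat.Prime).filter (fun p => ¬ p ∣ N) with hP
  have hPp : ∀ p ∈ P, p.Prime := fun p hp => (mem_filter.1 (mem_filter.1 hp).1).2
  have hsieve := Pool.Agent.Helper590.Ke.larger_sieve S P L hL hS h0 hPp
    (fun p => (p + 2 * d * Real.sqrt p) / 2) (fun p hp => by
      have : (0 : ℝ) < p := by exact_mod_cast (hPp p hp).pos
      positivity) (fun p hp => hc p (hPp p hp) (mem_filter.1 hp).2)
  have h1 : ∀ p ∈ P, 2 * (Real.log p / p) - 4 * d * (Real.log p / (p * Real.sqrt p)) ≤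
      Real.log p / ((p + 2 * d * Real.sqrt p) / 2) := by
    intro p hp
    have hp0 : (0 : ℝ) < p := by exact_mod_cast (hPp p hp).pos
    have hsp : 0 < Real.sqrt p := Real.sqrt_pos.2 hp0
    have hlp : 0 ≤ Real.log p := Real.log_natCast_nonneg p
    have hpp : (p : ℝ) = Real.sqrt p * Real.sqrt p := (Real.mul_self_sqrt hp0.le).symm
    have e1 : 2 * (Real.log p / p) - 4 * d * (Real.log p / (p * Real.sqrt p)) =
        Real.log p * ((2 * Real.sqrt p - 4 * d) / (p * Real.sqrt p)) := by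
      field_simp
    have e2 : Real.log p / ((p + 2 * d * Real.sqrt p) / 2) =
        Real.log p * (2 / (p + 2 * d * Real.sqrt p)) := by
      field_simp
    rw [e1, e2]
    refine mul_le_mul_of_nonneg_left ?_ hlp
    rw [div_le_div_iff₀ (by positivity) (by positivity)]
    have e3 : (2 * Real.sqrt p - 4 * d) * (p + 2 * d * Real.sqrt p) =
        2 * (p * Real.sqrt p) + 4 * d * (Real.sqrt p * Real.sqrt p) - 4 * d * p -
          8 * d ^ 2 * Real.sqrt p := by ring
    rw [e3, ← hpp]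
    have : 0 ≤ 8 * (d : ℝ) ^ 2 * Real.sqrt p := by positivity
    linarith
  have h2 := sum_le_sum h1
  rw [sum_sub_distrib, ← mul_sum, ← mul_sum] at h2
  have h3 := hC3 P fun p hp => (hPp p hp).one_lt.le
  have h4 := sum_filter_add_sum_filter_not ((Icc 1 Q).filter Nat.Prime) (fun p => p ∣ N)
    (fun p => Real.log p / p)
  have h5 := hC2 N Q hN
  have h6 := (abs_le.1 (hC1 Q hQ0)).1
  have h7 : Real.log (K * z * Real.sqrt L) ≤ Real.log Q :=
    Real.log_le_log (by positivity) hQ1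
  have h8 : Real.log (K * z * Real.sqrt L) = (C4 + 1) / 2 + Real.log z + Real.log L / 2 := by
    rw [Real.log_mul (by positivity) (by positivity), Real.log_mul (by positivity) (by positivity),
      hK, Real.log_exp, Real.log_sqrt (by positivity)]
  have h9 : (1 : ℝ) ≤ ∑ p ∈ P, Real.log p / ((p + 2 * d * Real.sqrt p) / 2) - Real.log L := by
    have h10 : 4 * (d : ℝ) * ∑ p ∈ P, Real.log p / (p * Real.sqrt p) ≤ 4 * d * C3 :=
      mul_le_mul_of_nonneg_left h3 (by positivity)
    linarith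
  have h10 : (S.card : ℝ) ≤ ∑ p ∈ P, Real.log p := by
    refine le_trans ?_ hsieve
    have : (0 : ℝ) ≤ S.card := Nat.cast_nonneg _
    nlinarith
  have h11 : ∑ p ∈ P, Real.log p ≤ Real.log 4 * Q := by
    refine le_trans ?_ (Chebyshev.theta_le_log4_mul_x (Nat.cast_nonneg Q))
    unfold Chebyshev.theta
    rw [Nat.floor_natCast]
    refine sum_le_sum_of_subset_of_nonneg ?_ fun p _ _ => Real.log_natCast_nonneg p
    intro p hp
    simp only [hP, mem_filter, mem_Icc] at hp
    simp only [mem_filter, mem_Ioc]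
    exact ⟨⟨by omega, hp.1.1.2⟩, hp.1.2⟩
  calc (S.card : ℝ) ≤ Real.log 4 * Q := h10.trans h11
    _ ≤ Real.log 4 * (2 * (K * z * Real.sqrt L)) :=
        mul_le_mul_of_nonneg_left hQ2 (Real.log_nonneg (by norm_num))
    _ = 2 * K * Real.log 4 * Real.sqrt L * z := by ring

end Pool.Agent.Q163.HC
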